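import Pool.Agent.H428.TP.Tri
import Pool.Agent.H508.Y.A5

/-!
# The quotient is a rational number
-/

set_option autoImplicit false
set_option linter.unusedSectionVars false
set_option linter.unusedVariables false

open scoped Classical

namespace Pool.Agent.H428.TP

open NumberField IsDedekindDomain WeierstrassCurve WithZero
open Pool.Agent.Y692.QS (Ei w nr toC)
open Pool.Agent.Y703.CT
open Pool.Agent.W192.HK Pool.Agent.TH936.CM
open Pool.Agent.Y696 (NonsingRed Cur hex hex_lat hex_g2 hex_g3 hex_g3_scale exists_cur eis)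
open Pool.Agent.Y696.CTK
open Pool.Agent.TH841.NF.D (Sha)
open Pool.Agent.XL6 (KerV)
open Pool.Agent.Y699.E (PD)
open Pool.Agent.H462.CTU.LK (Dk)
open Pool.Agent.H462.CTU.Val (IsHLk)
open Pool.Agent.H462.CTU.Sel (KW KerC)
open Pool.Agent.H462.CTU.Fam
open Pool.Agent.H462.CTU.Law.Cou
open Pool.Agent.H462.CTU.K

/-! ### rational numbers and the valuations above three -/

section rat
variable {Γ : Type} [LinearOrderedCommGroupWithZero Γ] {v : Valuation ℂ Γ}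

lemma v_nat_pow (hv : v 3 < 1) {n : ℕ} (hn : n ≠ 0) : v (n : ℂ) = v 3 ^ padicValNat 3 n := by
  have hp3 : Fact (Nat.Prime 3) := ⟨Nat.prime_three⟩
  obtain ⟨m, hm⟩ : 3 ^ padicValNat 3 n ∣ n := pow_padicValNat_dvd
  have hm3 : ¬ 3 ∣ m := by
    rintro ⟨t, rfl⟩
    have h2 : 3 ^ (padicValNat 3 n + 1) ∣ n := ⟨t, by
      conv_lhs => rw [hm]
      ring⟩
    have := (padicValNat_dvd_iff_le hn).1 h2
    omega
  conv_lhs => rw [hm]
  push_cast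
  rw [map_mul, map_pow, v_natp hv hm3, mul_one]

lemma v_rat_pow (hv : v 3 < 1) {z : ℚ} (hz : z ≠ 0) : v (z : ℂ) = v 3 ^ padicValRat 3 z := by
  have hp3 : Fact (Nat.Prime 3) := ⟨Nat.prime_three⟩
  have hv3 : v 3 ≠ 0 := (Valuation.ne_zero_iff _).2 (by norm_num)
  have hnum : v ((z.num : ℤ) : ℂ) = v 3 ^ padicValNat 3 z.num.natAbs := by
    have h1 : z.num.natAbs ≠ 0 := Int.natAbs_ne_zero.2 (Rat.num_ne_zero.2 hz)
    rw [← v_nat_pow hv h1]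
    rcases Int.natAbs_eq z.num with h | h
    · rw [h]
      simp
    · rw [h]
      simp [Valuation.map_neg]
  have hden := v_nat_pow (v := v) hv z.den_ne_zero
  have e : (z : ℂ) = (z.num : ℂ) / (z.den : ℂ) := by
    exact_mod_cast (Rat.num_div_den z).symm
  have e2 : padicValRat 3 z = (padicValNat 3 z.num.natAbs : ℤ) - (padicValNat 3 z.den : ℤ) := rfl
  rw [e, map_div₀, hnum, hden, e2, zpow_sub₀ hv3, zpow_natCast, zpow_natCast]

theorem v_rat (hv : v 3 < 1) (z : ℚ) : (v (z : ℂ) ≤ 1 ↔ 0 ≤ padicValRat 3 z) ∧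
    (v (z : ℂ) = 1 ↔ z ≠ 0 ∧ padicValRat 3 z = 0) := by
  have hv3 : v 3 ≠ 0 := (Valuation.ne_zero_iff _).2 (by norm_num)
  by_cases hz : z = 0
  · subst hz
    simp
  · rw [v_rat_pow hv hz]
    constructor
    · exact zpow_le_one_iff_right_of_lt_one₀ (zero_lt_iff.2 hv3) hv
    · rw [zpow_eq_one_iff_right₀ (zero_le) hv.ne]
      simp [hz]

end rat

/-! ### the period -/

lemma pdet_per {δ : ℂ} (hδ : δ ^ 2 = -3) (M : PeriodPair) : ∃ ε : ℚ,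
    ((Pool.Agent.H508.Y.pdet δ M : ℝ) : ℂ) * ((Real.sqrt 3 : ℝ) : ℂ) = ε * ((per M : ℝ) : ℂ) := by
  obtain ⟨h4, h5⟩ := Pool.Agent.H508.Y.sq_neg_three hδ
  have h3 : √3 * √3 = 3 := Real.mul_self_sqrt (by norm_num)
  have h6 : δ.im = √3 ∨ δ.im = -√3 := by
    have h7 : (δ.im - √3) * (δ.im + √3) = 0 := by nlinarith
    rcases mul_eq_zero.1 h7 with h | h
    · left; linarith
    · right; linarith
  have hp : Pool.Agent.H508.Y.pdet δ M = -δ.im * ((starRingEnd ℂ) M.ω₁ * M.ω₂).im := by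
    unfold Pool.Agent.H508.Y.pdet
    simp only [Complex.mul_re, Complex.mul_im, Complex.conj_re, Complex.conj_im, h4]
    ring
  suffices h : ∃ ε : ℚ, Pool.Agent.H508.Y.pdet δ M * √3 = ε * per M by
    obtain ⟨ε, h⟩ := h
    exact ⟨ε, by exact_mod_cast h⟩
  rw [hp]
  unfold per
  set t : ℝ := ((starRingEnd ℂ) M.ω₁ * M.ω₂).im with ht
  rcases h6 with h6 | h6 <;> rcases abs_cases t with ⟨h7, -⟩ | ⟨h7, -⟩
  · exact ⟨-(3 / 2), by rw [h6, h7]; push_cast; linear_combination (-t) * h3⟩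
  · exact ⟨3 / 2, by rw [h6, h7]; push_cast; linear_combination (-t) * h3⟩
  · exact ⟨3 / 2, by rw [h6, h7]; push_cast; linear_combination t * h3⟩
  · exact ⟨-(3 / 2), by rw [h6, h7]; push_cast; linear_combination t * h3⟩

section
variable {K : Type} [Field K] [NumberField K] (j : Ei ≃+* 𝓞 K)

/-- the period does not depend on the embedding and on the basis -/
theorem per_unif {D : Ei} (hD : D ≠ 0) : ∃ P : ℝ, 0 < P ∧ ∀ (σ : K →+* ℂ) (Λ : PeriodPair),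
    Λ.g₂ = 0 → Λ.g₃ = -(σ (j D)) ^ 2 → per Λ = P := by
  obtain ⟨Ω, hΩ, hC⟩ := exists_cur
  have hDC : toC D ≠ 0 := by
    intro h0
    exact hD ((map_eq_zero_iff toC Pool.Agent.Y692.QS.toC_inj).1 h0)
  obtain ⟨u₀, hu₀⟩ := IsAlgClosed.exists_pow_nat_eq (toC D) (n := 3) (by norm_num)
  have hu₀0 : u₀ ≠ 0 := by
    rintro rfl
    apply hDC
    rw [← hu₀]
    ring
  refine ⟨Real.sqrt 3 * ‖Ω‖ ^ 2 / ‖u₀‖ ^ 2, ?_, ?_⟩
  · have := norm_pos_iff.2 hΩ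
    have := norm_pos_iff.2 hu₀0
    positivity
  intro σ Λ k2 k3
  set d : ℂ := σ (j D : K) with hd'
  have hdn : ‖d‖ = ‖toC D‖ := by
    rcases Pool.Agent.H508.Y.emb_cases j σ D with h | h
    · rw [hd', h]
    · rw [hd', h, Complex.norm_conj]
  have hd : d ≠ 0 := by
    intro h
    rw [h, norm_zero] at hdn
    exact hDC (norm_eq_zero.1 hdn.symm)
  obtain ⟨u, hu⟩ := IsAlgClosed.exists_pow_nat_eq d (n := 3) (by norm_num)
  have hu0 : u ≠ 0 := by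
    rintro rfl
    apply hd
    rw [← hu]
    ring
  have hun : ‖u‖ = ‖u₀‖ := by
    refine Pool.Agent.H508.Y.cube_inj (norm_nonneg _) (norm_nonneg _) ?_
    rw [← norm_pow, ← norm_pow, hu, hu₀, hdn]
  have h0 : Ω / u ≠ 0 := div_ne_zero hΩ hu0
  have h3 : (hex (Ω / u) h0).g₃ = -d ^ 2 := by
    rw [hex_g3_scale h0]
    have h1 := hC.g3
    rw [hex_g3_scale hΩ] at h1
    have h2 : (hex 1 one_ne_zero).g₃ = -Ω ^ 6 := by
      field_simp at h1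
      linear_combination h1
    rw [h2, ← hu]
    field_simp
  have h2 : (hex (Ω / u) h0).g₂ = 0 := hex_g2 _ h0
  have h := Pool.Agent.Y577.LU.lat_unique Λ (hex (Ω / u) h0) (k2.trans h2.symm) (k3.trans h3.symm)
  have hl : IsLat Λ eis (Ω / u) := by
    refine ⟨h0, fun z => ?_⟩
    rw [h]
    exact (hex_lat _ h0).mem z
  have ha := Pool.Agent.Y696.area hl
  have e1 : ((Real.sqrt |((3 : ℤ) : ℝ)| : ℝ) : ℂ) * (Ω / u * (starRingEnd ℂ) (Ω / u)) =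
      ((Real.sqrt 3 * ‖Ω‖ ^ 2 / ‖u‖ ^ 2 : ℝ) : ℂ) := by
    have h4 : |((3 : ℤ) : ℝ)| = 3 := by norm_num
    rw [h4, Complex.mul_conj, Complex.normSq_eq_norm_sq, norm_div]
    push_cast
    ring
  rw [e1] at ha
  unfold per
  rw [← hun]
  exact_mod_cast ha

variable {J : Type} [Fintype J] [Nonempty J] {π : J → Ei} {k : ZMod 3} {D : Ei}

/-- the central value is a nonnegative real number -/
lemma l_nonneg (hdt : Dt π (fun _ => 1)) (hD : Dk k π (fun _ => 1) D) {Φ : ℂ → ℂ}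
    (hΦ : Differentiable ℂ Φ) (hL : ∀ s : ℂ, 3 / 2 < s.re → Φ s = (ED (j D : K)).LSeries s) :
    ∃ t : ℝ, 0 ≤ t ∧ Φ 1 = t := by
  obtain ⟨-, F, hF, -⟩ := Pool.Agent.H508.Y.act_val
    (⟨hdt.pq, hdt.nd, fun j => neg_ne_zero.2 (hdt.e0 j)⟩ : Dt π (fun i => -(fun _ => (1 : ZMod 3)) i)) k
  have hΦF : Φ = fun s => F s * (starRingEnd ℂ) (F ((starRingEnd ℂ) s)) :=
    Pool.Agent.H508.Y.ent_eq hΦ (Pool.Agent.Y696.CTK.diff_conj hF.1) fun s hs => by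
      rw [hL s hs]
      exact ((Pool.Agent.H462.CTU.LK.LK Pool.Agent.Y350.CT.rec j hdt hD hF hs).2).symm
  refine ⟨Complex.normSq (F 1), Complex.normSq_nonneg _, ?_⟩
  rw [hΦF]
  show F 1 * (starRingEnd ℂ) (F ((starRingEnd ℂ) 1)) = _
  rw [map_one, Complex.mul_conj]

/-- **The quotient is a rational number**, the same for all the embeddings and all the bases. -/
theorem quo_rat (hdisc : discr K = -3) (hdt : Dt π (fun _ => 1)) (hD : Dk k π (fun _ => 1) D)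
    {Φ : ℂ → ℂ} (hΦ : Differentiable ℂ Φ)
    (hL : ∀ s : ℂ, 3 / 2 < s.re → Φ s = (ED (j D : K)).LSeries s)
    (c : HeightOneSpectrum (𝓞 K) → ℕ) : ∃ q : ℚ, 0 ≤ q ∧
      ∀ (σ : K →+* ℂ) (Λ : PeriodPair), Λ.g₂ = 0 → Λ.g₃ = -(σ (j D)) ^ 2 →
        quo (ED (j D : K)) Φ c Λ = q := by
  have hne : D ≠ 0 := hD.ne hdt
  obtain ⟨P, hP, hper⟩ := per_unif (K := K) j hne
  obtain ⟨t, ht, hΦ1⟩ := l_nonneg (K := K) j hdt hD hΦ hL
  obtain ⟨σ₀⟩ : Nonempty (K →+* ℂ) := inferInstance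
  set d : ℂ := σ₀ (j D : K) with hd
  have hd0 : d ≠ 0 := by
    rw [hd]
    intro h
    apply hne
    apply j.injective
    rw [map_zero]
    have h1 : ((j D : 𝓞 K) : K) = 0 := (map_eq_zero σ₀).1 h
    exact_mod_cast h1
  obtain ⟨u, hu⟩ := IsAlgClosed.exists_pow_nat_eq d (n := 3) (by norm_num)
  obtain ⟨⟨M, hM2, hM3⟩, -⟩ := PER d u hd0 hu
  -- a square root of `-3`
  obtain ⟨a, ha⟩ : ∃ a : K, a ^ 2 = -3 := by
    refine ⟨((j (1 + 2 * w) : 𝓞 K) : K), ?_⟩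
    have h1 : ((1 + 2 * w : Ei)) ^ 2 = -3 := by decide
    have h2 : (j (1 + 2 * w)) ^ 2 = -3 := by
      rw [← map_pow, h1, map_neg, map_ofNat]
    have h3 := congrArg (algebraMap (𝓞 K) K) h2
    rw [map_pow, map_neg, map_ofNat] at h3
    exact h3
  obtain ⟨q, hq⟩ := Pool.Agent.H508.Y.period_formula j hdt hD hΦ hL σ₀ ha hM2 hM3
  have hδ : (σ₀ a) ^ 2 = -3 := by rw [← map_pow, ha, map_neg, map_ofNat]
  obtain ⟨ε, hε⟩ := pdet_per hδ M
  have hPM := hper σ₀ M hM2 hM3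
  have hPC : (P : ℂ) ≠ 0 := by
    rw [Ne, Complex.ofReal_eq_zero]
    exact hP.ne'
  have hdis : ((Real.sqrt |(discr K : ℝ)| : ℝ) : ℂ) = ((Real.sqrt 3 : ℝ) : ℂ) := by
    rw [hdisc]
    norm_num
  set N := Nat.card (AddCommGroup.torsion (ED (j D : K)).toAffine.Point) with hN
  set T : ℕ := ∏ᶠ v, c v with hT
  have hval : ∀ (σ : K →+* ℂ) (Λ : PeriodPair), Λ.g₂ = 0 → Λ.g₃ = -(σ (j D)) ^ 2 →
      quo (ED (j D : K)) Φ c Λ = ((q * ε * N ^ 2 / T : ℚ) : ℂ) := by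
    intro σ Λ k2 k3
    unfold quo
    rw [hper σ Λ k2 k3, hdis, ← hN, ← hT]
    have e1 : Φ 1 * ((Real.sqrt 3 : ℝ) : ℂ) = q * ε * P := by
      rw [hq, mul_assoc, hε, hPM]
      ring
    rw [e1]
    push_cast
    by_cases hT0 : (T : ℂ) = 0
    · rw [hT0]
      simp
    · field_simp
  refine ⟨q * ε * N ^ 2 / T, ?_, hval⟩
  have h1 := hval σ₀ M hM2 hM3
  unfold quo at h1
  rw [hPM, hdis, hΦ1, ← hN, ← hT] at h1
  have h2 : t * Real.sqrt 3 * (N : ℝ) ^ 2 / (P * (T : ℝ)) = ((q * ε * N ^ 2 / T : ℚ) : ℝ) := by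
    exact_mod_cast h1
  have h3 : 0 ≤ t * Real.sqrt 3 * (N : ℝ) ^ 2 / (P * (T : ℝ)) := by positivity
  rw [h2] at h3
  exact_mod_cast h3

end

section
variable {K : Type} [Field K] [NumberField K] (j : Ei ≃+* 𝓞 K)

/-- the law for one element of the class, with the rational quotient -/
theorem one_rat (hdisc : discr K = -3) {z : Ei} (hz : ClsA z) {r : ℕ} (hr : CorE z r) :
    Finite (AddCommGroup.torsion (ED (j z : K)).toAffine.Point) ∧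
    padicValNat 3 (Nat.card (AddCommGroup.torsion (ED (j z : K)).toAffine.Point)) = 1 ∧
    ∃ (Lf : ℂ → ℂ) (c : HeightOneSpectrum (𝓞 K) → ℕ) (q : ℚ),
      Differentiable ℂ Lf ∧
      (∀ s : ℂ, 3 / 2 < s.re →
        LSeriesSummable ((fun n : ℤ => (n : ℂ)) ∘ (ED (j z : K)).LFunction) s ∧
          Lf s = (ED (j z : K)).LSeries s) ∧
      IsTam (ED (j z : K)) c ∧
      (∀ v, j z ∈ v.asIdeal → c v = 3) ∧ (∀ v, j z ∉ v.asIdeal → ¬ 3 ∣ c v) ∧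
      0 ≤ q ∧ 0 ≤ padicValRat 3 q ∧ ((q ≠ 0 ∧ padicValRat 3 q = 0) ↔ r = 0) ∧
      ∀ σ : K →+* ℂ, (∃ Λ : PeriodPair, Λ.g₂ = 0 ∧ Λ.g₃ = -(σ (j z)) ^ 2) ∧
        ∀ Λ : PeriodPair, Λ.g₂ = 0 → Λ.g₃ = -(σ (j z)) ^ 2 →
          quo (ED (j z : K)) Lf c Λ = q := by
  obtain ⟨k, J, _, _, π, hdt, hDk, hCr, h9⟩ := exists_dt hz hr
  have hsm := sm_iff hdt hCr
  obtain ⟨h1, h2, Lf, c, h3, h4, h5, h6, h7, h8⟩ := law_gen (K := K) j hdisc hdt hDk h9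
  obtain ⟨q, hq0, hq⟩ := quo_rat (K := K) j hdisc hdt hDk h3 (fun s hs => (h4 s hs).2) c
  obtain ⟨σ₀⟩ : Nonempty (K →+* ℂ) := inferInstance
  obtain ⟨⟨M, hM2, hM3⟩, h9'⟩ := h8 σ₀
  obtain ⟨V, hV⟩ := Pool.Agent.Y715.T.Fin.exists_over_three
  obtain ⟨a1, a2⟩ := h9' M hM2 hM3 _ V.valuation hV
  rw [hq σ₀ M hM2 hM3] at a1 a2
  obtain ⟨b1, b2⟩ := v_rat hV q
  exact ⟨h1, h2, Lf, c, q, h3, h4, h5, h6, h7, hq0, b1.1 a1, b2.symm.trans (a2.trans hsm),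
    fun σ => ⟨(h8 σ).1, fun Λ k2 k3 => hq σ Λ k2 k3⟩⟩

end

end Pool.Agent.H428.TP
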