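import Pool.Agent.H462.CTU.Crit
import Pool.Agent.H462.CTU.Crit0
import Pool.Graph.R_seed8.Y363.CT.SELC
import Pool.Graph.R_seed8.Y100.CT.CUB3
import Pool.Graph.R_seed8.Y379.CT.Ramc

/-!
# The converse: a nontrivial kernel gives a nontrivial Selmer class, `D = ± ω^k ∏ π_i^{e_i}`, `k ≠ 0`
-/

set_option autoImplicit false
set_option linter.unusedSectionVars false
set_option linter.unusedVariables false

open scoped Classical

namespace Pool.Agent.H428.TP

open WeierstrassCurve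
open Pool.Agent.Y692.QS (Ei w nr toC mul_re mul_im w_sq)
open Pool.Agent.Y715.T.Gi Pool.Agent.Y715.T.Nr Pool.Agent.Y715.T.Df Pool.Agent.Y715.T.Ell
open Pool.Agent.Y715.T.Rec (cs)
open Pool.Agent.Y715.T.RecG
open Pool.Agent.Y715.T.Red Pool.Agent.Y715.T.Thr
open Pool.Agent.Y715.T.Sel (kc_mul kc_one kc_congr kc_pow kc_uniq kc_exp kc_cube kc_cancel kc_unit
  ex_root root_ne iota_sq odd_of not_dvd_of_unr resid_kc i₀_mod)
open Pool.Agent.Y48.CT.SEL (p0 pr0 esq prod_form cf_prod not_assoc_lam)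
open Pool.Agent.Y155.CT (a_mul a_cont)
open Pool.Agent.Y703.CT
open Pool.Agent.Y153.CTRAM
open Pool.Agent.Y379.CT (pow_val_eq_one exp_eq hensel)
open Pool.Agent.H462.CTU.Chr (nq nq_mul nq_of)
open Pool.Agent.H462.CTU.LK (Dk cs_ww not_dvd_w)
open Pool.Agent.H462.CTU.Ram (isUnit_w norm_unit)
open Pool.Agent.H462.CTU.Sel
open Pool.Agent.Y100.CT.CUB3 (res cube_res root norm_nine)

/-! ### the prime above three -/

/-- **local solutions at three**, for `B ≡ 1` modulo `3√-3` and any `D` prime to three -/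
theorem cub3w {I : PadicAlgCl 3} (hI : I ^ 2 + I + 1 = 0) {B D b : Ei} (hB : B = 1 + 3 * (lam * b))
    (hD : lam ∣ D ^ 2 - 1) : ∃ s t r, Sol hI B D s t r := by
  obtain ⟨t, ht⟩ := hD
  have hll : (lam : Ei) ^ 2 = -3 := lam_sq
  have hfix : ∀ z : Ei, ∀ τ : Au 3, τ I = I → τ (ev I hI z) = ev I hI z :=
    fun z τ hτ => ev_fix hI hτ z
  obtain ⟨u, hu, q, hq⟩ := res (-(b * D))
  have hu3 := cube_res hu
  obtain ⟨z, hz⟩ : ∃ z, B ^ 2 + B * D * (lam * u) ^ 3 = 1 + 9 * z := by
    refine ⟨(lam * b) ^ 2 + lam * b + lam * b * (lam * b) - b * B * t - q * B * D, ?_⟩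
    have h3 : (lam * u) ^ 3 = -3 * lam * u := by
      have : (lam * u) ^ 3 = lam ^ 2 * lam * u ^ 3 := by ring
      rw [this, hll, hu3]
    rw [h3]
    have hu' : u = -(b * D) - lam * q := by linear_combination -hq
    rw [hu']
    linear_combination (B + 1 + 3 * (lam * b) + 3 * lam * b) * hB + (3 * lam * b * B) * ht +
      (3 * b * B * t + 3 * q * B * D) * hll
  obtain ⟨s, hs, hs0, hsf⟩ := root hI (c := ev I hI (1 + 9 * z)) (hfix _) (by
    rw [map_add, map_one, add_sub_cancel_left]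
    exact norm_nine hI z)
  refine ⟨s, 1, ev I hI (lam * u), ⟨fun τ hτ => ⟨hsf τ hτ, map_one τ, hfix _ τ hτ⟩,
    Or.inl hs0, ?_⟩⟩
  rw [hs, ← hz, map_add, map_mul, map_mul, map_pow, map_pow]
  ring

/-! ### the primes dividing `D` -/

section ram
variable {J : Type} [Fintype J] {π : J → Ei} {e : J → ZMod 3} {k : ZMod 3} {D : Ei}

lemma dk_pow (h : Dk k π e D) (n : ℕ) : ∃ ε : Ei,
    D ^ n = ε ^ 3 * el π (fun o => (ex k e o).val * n) := by
  rcases dk_el h with h | h
  · exact ⟨1, by rw [h, el_pow]; ring⟩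
  · refine ⟨(-1) ^ n, ?_⟩
    rw [h, neg_pow, el_pow, ← pow_mul, mul_comm n 3, pow_mul]
    norm_num

/-- **local points at the primes dividing `D`** -/
theorem ramc (hD : Dt π e) (hDk : Dk k π e D) {i₀ : QB} {hi : i₀ ^ 2 + i₀ + 1 = 0} {u : QB}
    {a : GK i₀ → ZMod 3} (hT : Tw hi D u a) (v : Option J → ZMod 3) (h : GK i₀ → ZMod 3)
    (hK : Kc hi (el π (fun o => (ex k e o * v o).val)) h) (j : J)
    (hj : k * nq (π j) * (v none - v (some j)) +
      ∑ i, e i * cs (π j) (π i) * (v (some i) - v (some j)) = 0)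
    (p : ℕ) [Fact p.Prime] (ι : QB →ₐ[ℚ] PadicAlgCl p) (hπ : ‖ι (ev i₀ hi (π j))‖ < 1) :
    ∃ R, St1 hi ι a h R := by
  have hI := iota_sq' hi ι
  have hu := u_ne hT (hDk.ne hD)
  have hπ' := hπ
  rw [iota_ev] at hπ'
  -- the residue characteristic is not three
  have hp : p ≠ 3 := by
    rintro rfl
    obtain ⟨q, hq⟩ := (hD.pq j).three
    have e1 : π j = 1 + 3 * q := by linear_combination hq
    have h1 : ‖ev (ι i₀) hI (3 * q)‖ < 1 := by
      rw [map_mul]
      rw [mul_comm]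
      refine mul_lt (ev_le hI q) ?_
      rw [map_ofNat, norm_three']
      norm_num
    have h2 : ‖ev (ι i₀) hI (π j)‖ = 1 := by
      rw [e1, map_add, map_one, eq_of_lt, norm_one]
      rwa [norm_one]
    rw [h2] at hπ'
    exact lt_irrefl _ hπ'
  have hpr := (hD.pq j).prime
  have h9 := (hD.pq j).norm
  have hnd : ∀ i, i ≠ j → ¬ π j ∣ π i := fun i hij => hD.nd i j hij
  -- the local cube
  set M : Ei := w ^ (k * (v none - v (some j))).val *
    ∏ i ∈ Finset.univ.erase j, π i ^ (e i * (v (some i) - v (some j))).val with hM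
  have hndp : ∀ i ∈ Finset.univ.erase j, ¬ π j ∣ π i ^ (e i * (v (some i) - v (some j))).val :=
    fun i hi' h1 => hnd i (Finset.ne_of_mem_erase hi') (hpr.dvd_of_dvd_pow h1)
  have hw : ¬ π j ∣ (w : Ei) ^ (k * (v none - v (some j))).val :=
    fun h1 => not_dvd_w hpr (hpr.dvd_of_dvd_pow h1)
  have hnd2 : ¬ π j ∣ ∏ i ∈ Finset.univ.erase j, π i ^ (e i * (v (some i) - v (some j))).val := by
    intro h1
    obtain ⟨i, hi', h2⟩ := (hpr.dvd_finsetProd_iff _).1 h1
    exact hndp i hi' h2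
  have hMd : ¬ π j ∣ M := fun h1 => (hpr.dvd_or_dvd h1).elim hw hnd2
  have hcs : cs (π j) M = 0 := by
    rw [hM, cs_mul hpr h9 hw hnd2, cs_pow hpr h9 (not_dvd_w hpr), cs_ww (hD.pq j),
      cs_prod hpr h9 _ _ hndp]
    rw [← Finset.add_sum_erase _ _ (Finset.mem_univ j), sub_self, mul_zero, zero_add] at hj
    rw [← hj]
    congr 1
    · rw [ZMod.natCast_zmod_val]
      ring
    · refine Finset.sum_congr rfl fun i hi' => ?_
      rw [cs_pow hpr h9 (hnd i (Finset.ne_of_mem_erase hi')), ZMod.natCast_zmod_val]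
      ring
  obtain ⟨x, hx⟩ := (cs_zero_iff hpr h9 hMd).1 hcs
  have hxd : ¬ π j ∣ x := by
    intro h1
    apply hMd
    have h2 := dvd_add hx (dvd_pow h1 three_ne_zero)
    rwa [sub_add_cancel] at h2
  obtain ⟨s, hs, hs1, hsf⟩ := hensel hI hp (c := ev (ι i₀) hI M) (y := ev (ι i₀) hI x)
    (fun τ hτ => ev_fix hI hτ M) (fun τ hτ => ev_fix hI hτ x)
    (eq_one_of_not_lt hI ((dvd_iff hI hpr hπ' x).not.1 hxd)) (by
      have h1 := (dvd_iff hI hpr hπ' _).1 hx
      rw [map_sub, map_pow, ← norm_neg, neg_sub] at h1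
      exact h1)
  -- the identity between the products
  choose κ hκ using fun o : Option J => exp_eq (ex k e o) (v o) (v (some j))
  obtain ⟨ε, hε⟩ := dk_pow hDk (-v (some j)).val
  have hprod : el π (fun o => (ex k e o * v o).val) * D ^ (-v (some j)).val =
      M * (ε * el π κ) ^ 3 := by
    have h1 : M = el π (fun o => (ex k e o * (v o - v (some j))).val) := by
      unfold el
      rw [← Finset.mul_prod_erase Finset.univ
        (fun i => π i ^ (ex k e (some i) * (v (some i) - v (some j))).val) (Finset.mem_univ j)]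
      rw [sub_self, mul_zero, ZMod.val_zero, pow_zero, one_mul]
      rfl
    rw [hε, h1, mul_pow, el_pow]
    have h2 : el π (fun o => (ex k e o * v o).val) *
        (ε ^ 3 * el π (fun o => (ex k e o).val * (-v (some j)).val)) =
        ε ^ 3 * (el π (fun o => (ex k e o * v o).val) *
          el π (fun o => (ex k e o).val * (-v (some j)).val)) := by ring
    have h3 : el π (fun o => (ex k e o * (v o - v (some j))).val) *
        (ε ^ 3 * el π (fun o => κ o * 3)) =
        ε ^ 3 * (el π (fun o => (ex k e o * (v o - v (some j))).val) *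
          el π (fun o => κ o * 3)) := by ring
    rw [h2, h3, el_mul, el_mul]
    congr 2
    funext o
    rw [hκ, mul_comm (κ o) 3]
  -- the cube root
  obtain ⟨b, hb⟩ := IsAlgClosed.exists_pow_nat_eq
    (ev i₀ hi (el π (fun o => (ex k e o * v o).val))) (n := 3) (by norm_num)
  have hb0 : b ≠ 0 := by
    rintro rfl
    have h1 : ev i₀ hi (el π (fun o => (ex k e o * v o).val)) = 0 := by rw [← hb]; ring
    exact el_ne hD _ (ev_inj hi h1)
  have hcube : (ι (b * u ^ (-v (some j)).val)) ^ 3 = (s * ev (ι i₀) hI (ε * el π κ)) ^ 3 := by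
    rw [← map_pow, mul_pow, ← pow_mul, mul_comm _ 3, pow_mul, hb, hT.cube, ← map_pow, ← map_mul,
      hprod, iota_ev, map_mul, map_pow, mul_pow s, hs]
  obtain ⟨n, hn⟩ := cube_eq hI hcube
  have hchar : ∀ (τ : Au p) (σ : GK i₀), Cmp ι τ σ → h σ = -(v (some j) * a σ) := by
    intro τ σ hc
    have hτI : τ (ι i₀) = ι i₀ := hc.fix
    have h1 : τ (ι (b * u ^ (-v (some j)).val)) = ι (b * u ^ (-v (some j)).val) := by
      rw [hn, map_mul, map_mul, map_pow, hτI, hsf τ hτI, ev_fix hI hτI]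
    rw [hc] at h1
    have h2 := ι.injective h1
    have h3 : σ (b * u ^ (-v (some j)).val) =
        i₀ ^ ((h σ).val + (-a σ).val * (-v (some j)).val) * (b * u ^ (-v (some j)).val) := by
      rw [map_mul, map_pow, hK b hb σ, hT.act σ, mul_pow, ← pow_mul, pow_add]
      ring
    rw [h3] at h2
    have h4 : i₀ ^ ((h σ).val + (-a σ).val * (-v (some j)).val) = 1 := by
      apply mul_right_cancel₀ (mul_ne_zero hb0 (pow_ne_zero (-v (some j)).val hu))
      rw [h2, one_mul]
    have h5 := pow_val_eq_one hi _ h4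
    push_cast at h5
    rw [ZMod.natCast_zmod_val, ZMod.natCast_zmod_val, ZMod.natCast_zmod_val] at h5
    linear_combination h5
  -- the point
  obtain ⟨hn3, hT3⟩ := exists_T3 hI
  set T3 : Pt (PadicAlgCl p) := Affine.Point.some (-1) ((ι i₀) ^ 2) hn3 with hT3d
  have hjT3 : ∀ c : ZMod 3, jj hI c T3 = T3 - tt _ c := by
    intro c
    rcases z3 c with rfl | rfl | rfl
    · rw [jj_zero, tt_zero, sub_zero]
    · rw [jj_one, hT3]
    · rw [jj_neg_one, hT3, map_sub, im_tt, hT3, sub_sub, ← tt_add]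
      congr 2
  have hlT3 : ∀ τ : Au p, τ (ι i₀) = ι i₀ → pm (lh τ) T3 = T3 := by
    intro τ hτI
    rw [hT3d, pm_some, Affine.Point.some.injEq]
    rw [lh_apply, lh_apply]
    constructor
    · rw [map_neg, map_one]
    · rw [map_pow, hτI]
  refine ⟨(v (some j)).val • T3, fun τ σ hc => ?_⟩
  rw [map_nsmul, hlT3 τ hc.fix, jj_nsmul, hjT3, smul_sub, nsmul_tt, hchar τ σ hc, ← tt_neg]
  abel

end ram

/-! ### the Selmer class -/

section sel
variable {J : Type} [Fintype J] {π : J → Ei} {e : J → ZMod 3} {k : ZMod 3} {D : Ei}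
variable {i₀ : QB} {hi : i₀ ^ 2 + i₀ + 1 = 0}

lemma nr_three {z : Ei} (h : (3 : Ei) ∣ z - 1) : (3 : ℤ) ∣ nr z - 1 := by
  obtain ⟨t, ht⟩ := h
  have e1 : z = 1 + 3 * t := by linear_combination ht
  have h3 : (3 : Ei).re = 3 := rfl
  have i3 : (3 : Ei).im = 0 := rfl
  have r1 : (1 : Ei).re = 1 := rfl
  have i1 : (1 : Ei).im = 0 := rfl
  have hre : z.re = 1 + 3 * t.re := by
    rw [e1, QuadraticAlgebra.re_add, mul_re, h3, i3, r1]
    ring
  have him : z.im = 3 * t.im := by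
    rw [e1, QuadraticAlgebra.im_add, mul_im, h3, i3, i1]
    ring
  unfold nr
  rw [hre, him]
  exact ⟨2 * t.re + 3 * t.re ^ 2 - (1 + 3 * t.re) * t.im + 3 * t.im ^ 2, by ring⟩

lemma nq_pow {z : Ei} (h : (3 : ℤ) ∣ nr z - 1) (n : ℕ) :
    (3 : ℤ) ∣ nr (z ^ n) - 1 ∧ nq (z ^ n) = n * nq z := by
  induction n with
  | zero =>
    have h1 : nr (1 : Ei) = 1 := by decide
    rw [pow_zero, h1, nq_of (a := 0) (by rw [h1]; norm_num)]
    simp
  | succ n ih =>
    constructor
    · rw [pow_succ, Pool.Agent.Y692.QS.nr_mul]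
      obtain ⟨a, ha⟩ := ih.1
      obtain ⟨b, hb⟩ := h
      exact ⟨a + b + 3 * a * b, by
        have h1 : nr (z ^ n) = 1 + 3 * a := by linarith
        have h2 : nr z = 1 + 3 * b := by linarith
        rw [h1, h2]
        ring⟩
    · rw [pow_succ, nq_mul ih.1 h, ih.2]
      push_cast
      ring

lemma nq_prod (hD : Dt π e) (x : J → ℕ) (s : Finset J) :
    (3 : ℤ) ∣ nr (∏ j ∈ s, π j ^ x j) - 1 ∧
      nq (∏ j ∈ s, π j ^ x j) = ∑ j ∈ s, (x j : ZMod 3) * nq (π j) := by
  induction s using Finset.induction_on with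
  | empty =>
    have h1 : nr (1 : Ei) = 1 := by decide
    rw [Finset.prod_empty, Finset.sum_empty, h1, nq_of (a := 0) (by rw [h1]; norm_num)]
    simp
  | insert i s hi ih =>
    have h0 := nq_pow (nr_three (hD.pq i).three) (x i)
    rw [Finset.prod_insert hi, Finset.sum_insert hi]
    constructor
    · rw [Pool.Agent.Y692.QS.nr_mul]
      obtain ⟨a, ha⟩ := ih.1
      obtain ⟨b, hb⟩ := h0.1
      exact ⟨a + b + 3 * a * b, by
        have h1 : nr (∏ j ∈ s, π j ^ x j) = 1 + 3 * a := by linarith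
        have h2 : nr (π i ^ x i) = 1 + 3 * b := by linarith
        rw [h1, h2]
        ring⟩
    · rw [nq_mul h0.1 ih.1, h0.2, ih.2]

/-- norm one modulo nine -/
lemma lam_of {b : Ei} (h : nq (1 + 3 * b) = 0) : lam ∣ b := by
  have h3 : (3 : Ei).re = 3 := rfl
  have i3 : (3 : Ei).im = 0 := rfl
  have r1 : (1 : Ei).re = 1 := rfl
  have i1 : (1 : Ei).im = 0 := rfl
  have hn : nr (1 + 3 * b) = 1 + 3 * (2 * b.re - b.im + 3 * (b.re ^ 2 - b.re * b.im + b.im ^ 2)) := by
    unfold nr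
    rw [QuadraticAlgebra.re_add, mul_re, QuadraticAlgebra.im_add, mul_im, h3, i3, r1, i1]
    ring
  rw [nq_of hn, ZMod.intCast_zmod_eq_zero_iff_dvd] at h
  obtain ⟨m, hm⟩ := h
  push_cast at hm
  have h4 : b.re + b.im = 3 * (b.re + (b.re ^ 2 - b.re * b.im + b.im ^ 2) - m) := by linarith
  obtain ⟨n, hn'⟩ : ∃ n, b.re + b.im = 3 * n := ⟨_, h4⟩
  have hl : (lam : Ei) = 1 + 2 * w := by decide
  have hw := w_sq
  refine ⟨-lam * (n : Ei) + (1 + w) * (b.im : Ei), ?_⟩
  have h5 : ((b.re : ℤ) : Ei) + (b.im : Ei) = 3 * (n : Ei) := by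
    exact_mod_cast congrArg (Int.cast : ℤ → Ei) hn'
  conv_lhs => rw [Pool.Agent.Y692.QS.eta b]
  rw [hl]
  linear_combination h5 + (4 * (n : Ei) - 2 * (b.im : Ei)) * hw

/-- the unit `ω` is not a cube -/
lemma w_not_cube {c : ZMod 3} (h : Kc hi (w ^ c.val) (fun _ => 0)) : c = 0 := by
  set ρ : Ei := 1 + 3 * w with hρ
  have hn : nr ρ = 7 := by decide
  have hpr : Prime ρ := by
    rw [← irreducible_iff_prime]
    refine ⟨fun hu => ?_, fun a b hab => ?_⟩
    · rw [Pool.Agent.Y692.QS.isUnit_iff, hn] at hu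
      norm_num at hu
    · have h1 : nr a * nr b = 7 := by rw [← Pool.Agent.Y692.QS.nr_mul, ← hab, hn]
      rw [Pool.Agent.Y692.QS.isUnit_iff, Pool.Agent.Y692.QS.isUnit_iff]
      have ha := Pool.Agent.Y692.QS.nr_nonneg a
      have hb := Pool.Agent.Y692.QS.nr_nonneg b
      have h2 : nr a ∣ 7 := ⟨nr b, h1.symm⟩
      have h3 : nr a ≤ 7 := Int.le_of_dvd (by norm_num) h2
      interval_cases hh : nr a <;> omega
  have hpq : Pq ρ := ⟨hpr, ⟨w, by rw [hρ]; ring⟩⟩
  obtain ⟨p, hp, ι, hl⟩ := exists_emb hi hpr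
  have hp3 := odd_of hi ι hpr hl (not_assoc_lam hpq)
  obtain ⟨y, hy⟩ := resid_kc h hp3 ι hpr hl (fun _ _ _ => rfl)
  have h1 : ¬ ρ ∣ (w : Ei) ^ c.val := fun h1 => not_dvd_w hpr (hpr.dvd_of_dvd_pow h1)
  have h2 := (cs_zero_iff hpr hpq.norm h1).2 ⟨y, hy⟩
  rw [cs_pow hpr hpq.norm (not_dvd_w hpr), cs_ww hpq, nq_of (a := 2) (by rw [hn]; norm_num),
    ZMod.natCast_zmod_val] at h2
  clear h1 hy h
  revert h2
  generalize c = d
  revert d
  decide

lemma lam_w : (lam : Ei) ∣ w - 1 := ⟨-w ^ 2, by decide⟩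

lemma lam_wk (n : ℕ) : (lam : Ei) ∣ w ^ n - 1 := lam_w.trans (by
  have := sub_dvd_pow_sub_pow (w : Ei) 1 n
  rwa [one_pow] at this)

lemma lam_three : (lam : Ei) ∣ 3 := ⟨-lam, by linear_combination lam_sq⟩

lemma lam_D (hD : Dt π e) (hDk : Dk k π e D) : (lam : Ei) ∣ D ^ 2 - 1 := by
  obtain ⟨q, hq⟩ := prod_form hD (fun j => (e j).val)
  have e1 : pD π e - 1 = 3 * q := by
    unfold pD
    exact hq
  have h1 : (lam : Ei) ∣ w ^ k.val * pD π e - 1 := by
    have h2 : w ^ k.val * pD π e - 1 = (w ^ k.val - 1) * pD π e + 3 * q := by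
      linear_combination e1
    rw [h2]
    exact dvd_add ((lam_wk _).mul_right _) (lam_three.mul_right _)
  have h3 : D ^ 2 - 1 = (w ^ k.val * pD π e - 1) * (w ^ k.val * pD π e + 1) := by
    rcases hDk with h | h <;> rw [h] <;> ring
  rw [h3]
  exact h1.mul_right _

/-- the sum of the equations -/
lemma sum_zero (hk : k ≠ 0) (hD : Dt π e) {v : Option J → ZMod 3} (hv : v ∈ KW k π e)
    (h0 : v none = 0) : ∑ j, e j * v (some j) * nq (π j) = 0 := by
  have hT : ∑ j, e j * ∑ i, e i * cs (π j) (π i) * (v (some i) - v (some j)) = 0 := by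
    have h2 : ∀ x : ZMod 3, x = -x → x = 0 := by decide
    apply h2
    rw [← Finset.sum_neg_distrib]
    simp only [Finset.mul_sum]
    rw [Finset.sum_comm]
    simp only [← Finset.sum_neg_distrib]
    refine Finset.sum_congr rfl fun i _ => ?_
    refine Finset.sum_congr rfl fun j _ => ?_
    by_cases hij : i = j
    · rw [hij]
      ring
    · rw [Pool.Agent.Y350.CT.rec (π i) (π j) (hD.pq i) (hD.pq j) (hD.nd i j hij)]
      ring
  have h1 : ∑ j, e j * (k * nq (π j) * (v none - v (some j)) +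
      ∑ i, e i * cs (π j) (π i) * (v (some i) - v (some j))) = 0 :=
    Finset.sum_eq_zero fun j _ => by rw [hv j, mul_zero]
  simp only [mul_add] at h1
  rw [Finset.sum_add_distrib, hT, add_zero, h0] at h1
  have h2 : k * ∑ j, e j * v (some j) * nq (π j) = 0 := by
    rw [← neg_eq_zero, ← h1, Finset.mul_sum, ← Finset.sum_neg_distrib]
    refine Finset.sum_congr rfl fun j _ => ?_
    ring
  exact (mul_eq_zero.1 h2).resolve_left hk

/-- **a nontrivial kernel gives a nontrivial Selmer class** -/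
theorem selc (hk : k ≠ 0) (hD : Dt π e) (hDk : Dk k π e D) (hK : ¬ KerC k π e)
    {u : QB} {a : GK i₀ → ZMod 3} (hTw : Tw hi D u a) : ¬ Sel1 hi a := by
  intro hsel
  unfold KerC at hK
  push Not at hK
  obtain ⟨v₀, hv₀, i₁, hne⟩ := hK
  -- normalization
  obtain ⟨v, hv, h0, hne1⟩ : ∃ v ∈ KW k π e, v none = 0 ∧ v (some i₁) ≠ 0 := by
    refine ⟨fun o => v₀ o - v₀ none, fun j => ?_, sub_self _, sub_ne_zero.2 hne⟩
    have h1 := hv₀ j
    rw [← h1]
    simp only [sub_sub_sub_cancel_right]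
  have hB0 : el π (fun o => (ex k e o * v o).val) ≠ 0 := el_ne hD _
  have hD0 : D ≠ 0 := hDk.ne hD
  obtain ⟨β, a', hTw'⟩ := Pool.Agent.Y363.CT.SELC.exists_tw (hi := hi)
    (el π (fun o => (ex k e o * v o).val))
  have hm : ∀ σ τ : GK i₀, -a' (σ * τ) = -a' σ + -a' τ := by
    intro σ τ
    rw [a_mul hB0 hTw' σ τ]
    ring
  have hc : IsLocallyConstant (fun σ : GK i₀ => -a' σ) :=
    (a_cont hB0 hTw').comp (fun c : ZMod 3 => -c)
  have hKc : Kc hi (el π (fun o => (ex k e o * v o).val)) (fun σ => -a' σ) :=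
    kc_of hi (root_ne (hi := hi) hB0 hTw'.cube) hTw'.cube hTw'.act
  have hBp : el π (fun o => (ex k e o * v o).val) = ∏ j, π j ^ (e j * v (some j)).val := by
    unfold el
    show w ^ (k * v none).val * _ = _
    rw [h0, mul_zero, ZMod.val_zero, pow_zero, one_mul]
    rfl
  obtain ⟨b, hb⟩ := prod_form hD (fun j => (e j * v (some j)).val)
  have hb' : ∏ j, π j ^ (e j * v (some j)).val = 1 + 3 * b := by linear_combination hb
  have hlb : lam ∣ b := by
    apply lam_of
    rw [← hb', (nq_prod hD (fun j => (e j * v (some j)).val) Finset.univ).2,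
      ← sum_zero hk hD hv h0]
    refine Finset.sum_congr rfl fun j _ => ?_
    rw [ZMod.natCast_zmod_val]
  obtain ⟨b', hb2⟩ := hlb
  have hloc : ∀ (p : ℕ) [Fact p.Prime] (ι : QB →ₐ[ℚ] PadicAlgCl p),
      ∃ R, St1 hi ι a (fun σ => -a' σ) R := by
    intro p _ ι
    by_cases hp3 : p = 3
    · subst hp3
      exact Pool.Agent.Y674.CT.t_PT i₀ hi _ _ hB0 hD0 u a hTw _ hKc 3 ι
        (cub3w (iota_sq' hi ι) (by rw [hBp, hb', hb2]) (lam_D hD hDk))
    · by_cases hj : ∃ j, ‖ι (ev i₀ hi (π j))‖ < 1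
      · obtain ⟨j, hj⟩ := hj
        exact ramc hD hDk hTw v _ hKc j (hv j) p ι hj
      · have hj' : ∀ j, ¬ ‖ev (ι i₀) (iota_sq' hi ι) (π j)‖ < 1 := by
          intro j h1
          apply hj
          refine ⟨j, ?_⟩
          rw [iota_ev]
          exact h1
        refine Pool.Agent.Y674.CT.t_PT i₀ hi _ _ hB0 hD0 u a hTw _ hKc p ι
          (Pool.Agent.Y379.CT.t_CUB Pool.Agent.Y319.CT.t_FF p hp3 (ι i₀) (iota_sq' hi ι) _ _ ?_ ?_)
        · rw [hBp]
          exact Pool.Agent.Y363.CT.SELC.not_lt_prod _ hj' _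
        · rw [hDk.norm_eq]
          exact Pool.Agent.Y363.CT.SELC.not_lt_prod _ hj' _
  obtain ⟨c, hc'⟩ := hsel _ hc hm hloc
  have hbD := kc_D hD hDk hTw
  have hy := kc_mul hB0 (pow_ne_zero c.val (el_ne hD _)) hKc (kc_pow (el_ne hD _) hbD c.val)
  rw [el_pow, el_mul] at hy
  have hy2 : Kc hi (el π (fun o => (ex k e o * (v o + c)).val)) (fun σ => 0) := by
    refine kc_congr (el_exp hD (fun o => ?_) hy) fun σ => ?_
    · push_cast
      rw [ZMod.natCast_zmod_val, ZMod.natCast_zmod_val, ZMod.natCast_zmod_val,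
        ZMod.natCast_zmod_val]
      ring
    · have h1 : -a' σ = c * a σ := hc' σ
      rw [h1, ZMod.natCast_zmod_val]
      ring
  have hvj : ∀ j, v (some j) = -c := by
    intro j
    obtain ⟨p, hp, ι, hl⟩ := exists_emb hi (hD.pq j).prime
    have hp3 := odd_of hi ι (hD.pq j).prime hl (not_assoc_lam (hD.pq j))
    have hcf : CF (el π (fun o => (ex k e o * (v o + c)).val)) :=
      cf_unit (cf_prod hD (fun i => e i * (v (some i) + c))) (isUnit_w.pow _)
    have h1 := not_dvd_of_unr hcf hy2 hp3 ι (hD.pq j).prime hl (fun τ σ _ _ => rfl)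
    have hyj : e j * (v (some j) + c) = 0 := by
      by_contra hne'
      apply h1
      unfold el
      refine Dvd.dvd.mul_left (dvd_trans (dvd_pow_self (π j) ?_) (Finset.dvd_prod_of_mem
        (fun i => π i ^ (ex k e (some i) * (v (some i) + c)).val) (Finset.mem_univ j))) _
      rw [Ne, ZMod.val_eq_zero]
      exact hne'
    exact eq_neg_of_add_eq_zero_left ((mul_eq_zero.1 hyj).resolve_left (hD.e0 j))
  have hw : Kc hi (w ^ (k * c).val) (fun _ => 0) := by
    have h1 : el π (fun o => (ex k e o * (v o + c)).val) = w ^ (k * c).val := by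
      unfold el
      rw [Finset.prod_eq_one, mul_one]
      · show w ^ (k * (v none + c)).val = _
        rw [h0, zero_add]
      · intro j _
        show π j ^ (e j * (v (some j) + c)).val = 1
        rw [hvj j, neg_add_cancel, mul_zero, ZMod.val_zero, pow_zero]
    rwa [h1] at hy2
  have hc0 : c = 0 := (mul_eq_zero.1 (w_not_cube hw)).resolve_left hk
  apply hne1
  rw [hvj i₁, hc0, neg_zero]

end sel

end Pool.Agent.H428.TP
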