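import Pool.Agent.H462.CTU.Crit0
import Pool.Graph.R_seed8.Y696.CTK.Fin

/-!
# The valuation of `|F(1)|²` for `D = ± ω^k ∏ π_i^{e_i}`, `k ≠ 0`
-/

set_option autoImplicit false
set_option linter.unusedSectionVars false
set_option linter.unusedVariables false

open scoped Classical

namespace Pool.Agent.H428.TP

open Pool.Agent.Y692.QS (Ei w nr toC)
open Pool.Agent.Y703.CT
open Pool.Agent.Y715.T.Rec (cs)
open Pool.Agent.Y715.T.Three (lam_ne lam_lt lam_ne' lam_pos sq_three v_nine)
open Pool.Agent.Y696 (Cur)
open Pool.Agent.H462.CTU.Chr (nq)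
open Pool.Agent.H462.CTU.Val (IsHLk lb)
open Pool.Agent.H462.CTU.Main (KerW)
open Pool.Agent.H462.CTU.Eng (G gd)

variable {J : Type} [Fintype J] {π : J → Ei} {e : J → ZMod 3} {k : ZMod 3}

lemma two_zero {x : ZMod 3} (h : x = -x) : x = 0 := by
  revert x
  decide

/-- the determinant and the kernel -/
theorem G_iff [Nonempty J] (hrec : S_REC) (h : Dt π e) :
    (KerW k π e → G (am π (fun i => -e i)) (lb k π) (fun i => -e i * lb k π i)
      Finset.univ ≠ 0) ∧
    (¬ KerW k π e → G (am π (fun i => -e i)) (lb k π) (fun i => -e i * lb k π i)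
      Finset.univ = 0) := by
  have h' : Dt π (fun i => -e i) := ⟨h.pq, h.nd, fun j => neg_ne_zero.2 (h.e0 j)⟩
  have hsymm : ∀ (o o' : Option J), o ≠ o' →
      (o.elim (1 : ZMod 3) (fun i => -e i)) * Pool.Agent.H462.CTU.Eng.am (am π (fun i => -e i))
        (lb k π) (fun i => -e i * lb k π i) o o' =
      (o'.elim (1 : ZMod 3) (fun i => -e i)) * Pool.Agent.H462.CTU.Eng.am (am π (fun i => -e i))
        (lb k π) (fun i => -e i * lb k π i) o' o := by
    intro o o' hoo
    cases o with
    | none =>
      cases o' with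
      | none => exact absurd rfl hoo
      | some i => show (1 : ZMod 3) * (-e i * lb k π i) = -e i * lb k π i; rw [one_mul]
    | some i =>
      cases o' with
      | none => show -e i * lb k π i = (1 : ZMod 3) * (-e i * lb k π i); rw [one_mul]
      | some j =>
        show -e i * am π (fun i => -e i) i j = -e j * am π (fun i => -e i) j i
        have hij : i ≠ j := fun h0 => hoo (by rw [h0])
        unfold Pool.Agent.Y703.CT.am
        rw [hrec (π i) (π j) (h.pq i) (h.pq j) (h.nd i j hij)]
        ring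
  have he0 : ∀ o : Option J, (o.elim (1 : ZMod 3) (fun i => -e i)) ≠ 0 := by
    intro o
    cases o with
    | none => exact one_ne_zero
    | some i => exact h'.e0 i
  constructor
  · intro hK
    unfold Pool.Agent.H462.CTU.Eng.G
    refine Pool.Agent.Y715.T.Comb.D_ne (ε := fun o => o.elim 1 (fun i => -e i)) ?_
      (fun o _ => he0 o) (fun o _ o' _ hoo => hsymm o o' hoo) ?_ ?_
    · exact ⟨none, by simp⟩
    · intro v hv
      have h1 : ∀ i, v (some i) = v none := by
        apply hK v
        intro i
        have h2 := hv (some i) (by simp)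
        rw [Finset.sum_insertNone] at h2
        rw [← h2]
        congr 1
        refine Finset.sum_congr rfl fun j _ => ?_
        show _ = am π (fun i => -e i) i j * _
        unfold Pool.Agent.Y703.CT.am
        ring
      intro o _ o' _
      cases o with
      | none =>
        cases o' with
        | none => rfl
        | some j => exact (h1 j).symm
      | some i =>
        cases o' with
        | none => exact h1 i
        | some j => rw [h1 i, h1 j]
    · rw [Finset.sum_insertNone]
      have h1 : ∑ i : J, (fun o : Option J => o.elim (1 : ZMod 3) (fun i => -e i)) (some i) *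
          gd J (some i) = 0 := by
        refine Finset.sum_eq_zero fun i _ => ?_
        show _ * (0 : ZMod 3) = 0
        rw [mul_zero]
      rw [h1, add_zero]
      show (1 : ZMod 3) * 1 ≠ 0
      decide
  · intro hK
    unfold Pool.Agent.H462.CTU.Eng.G
    have hun : (Finset.insertNone (Finset.univ : Finset J)) = (Finset.univ : Finset (Option J)) := by
      ext o
      cases o <;> simp
    rw [hun]
    refine Pool.Agent.Y319.CT.t_DZ (Option J) _ _ (fun o => o.elim (1 : ZMod 3) (fun i => -e i))
      ⟨none⟩ he0 hsymm ?_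
    intro hcon
    apply hK
    intro v hv i
    refine hcon v (fun o => ?_) (some i) none
    have hT : ∑ i, e i * ∑ j, e j * cs (π j) (π i) * (v (some i) - v (some j)) = 0 := by
      apply two_zero
      rw [← Finset.sum_neg_distrib]
      simp only [Finset.mul_sum]
      rw [Finset.sum_comm]
      simp only [← Finset.sum_neg_distrib]
      refine Finset.sum_congr rfl fun i _ => ?_
      refine Finset.sum_congr rfl fun j _ => ?_
      by_cases hij : i = j
      · rw [hij]
        ring
      · rw [hrec (π i) (π j) (h.pq i) (h.pq j) (h.nd i j hij)]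
        ring
    cases o with
    | none =>
      rw [Fintype.sum_option]
      show _ + ∑ j, (-e j * lb k π j) * (v none - v (some j)) = 0
      rw [sub_self, mul_zero, zero_add]
      have h1 : ∑ i, e i * (k * nq (π i) * (v (some i) - v none) +
          ∑ j, e j * cs (π j) (π i) * (v (some i) - v (some j))) = 0 :=
        Finset.sum_eq_zero fun i _ => by rw [hv i, mul_zero]
      simp only [mul_add] at h1
      rw [Finset.sum_add_distrib, hT, add_zero] at h1
      rw [← h1]
      refine Finset.sum_congr rfl fun j _ => ?_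
      unfold Pool.Agent.H462.CTU.Val.lb
      ring
    | some i =>
      rw [Fintype.sum_option, ← hv i]
      congr 1
      refine Finset.sum_congr rfl fun j _ => ?_
      show am π (fun i => -e i) i j * _ = _
      unfold Pool.Agent.Y703.CT.am
      ring

/-- the valuation of `|F(1)|²` -/
theorem val_w [Nonempty J] (hk : k ≠ 0) (hD : Dt π e) :
    ∃ F : ℂ → ℂ, IsHLk k π (fun j => -e j) F ∧
      ∀ (Γ : Type) [LinearOrderedCommGroupWithZero Γ] (v : Valuation ℂ Γ), v 3 < 1 →
        ∀ (L : PeriodPair) (Ω : ℂ), Cur L Ω → ∃ g : Γ, g ≤ 1 ∧ (KerW k π e → g = 1) ∧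
          (¬ KerW k π e → g < 1) ∧
          v (F 1 * (starRingEnd ℂ) (F 1) / (Ω * (starRingEnd ℂ) Ω)) *
            (v Pool.Agent.Y715.T.Three.lam * v Pool.Agent.Y715.T.Three.lam) =
            (v Pool.Agent.Y715.T.Three.lam * v Pool.Agent.Y715.T.Three.lam) ^
              (Fintype.card J - 1) * g := by
  have h' : Dt π (fun i => -e i) := ⟨hD.pq, hD.nd, fun j => neg_ne_zero.2 (hD.e0 j)⟩
  obtain ⟨F, hF, hval⟩ := Pool.Agent.H462.CTU.Val.an_val hk h' (fun i => -e i * lb k π i)
  obtain ⟨hd1, hd0⟩ := G_iff (k := k) Pool.Agent.Y350.CT.rec hD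
  set d : ZMod 3 := G (am π (fun i => -e i)) (lb k π) (fun i => -e i * lb k π i)
    Finset.univ with hd
  refine ⟨F, hF, ?_⟩
  intro Γ _ v hv L Ω hC
  have hv' : (v.comap (starRingEnd ℂ)) 3 < 1 := by
    rw [Valuation.comap_apply, map_ofNat]
    exact hv
  obtain ⟨s, hs, h1⟩ := hval Γ v hv L Ω hC
  obtain ⟨s', hs', h1'⟩ := hval Γ (v.comap (starRingEnd ℂ)) hv' L Ω hC
  have h2 : (v.comap (starRingEnd ℂ)) Pool.Agent.Y715.T.Three.lam =
      v Pool.Agent.Y715.T.Three.lam := by
    rw [Valuation.comap_apply, Pool.Agent.Y703.CT.conj_lam, v.map_neg]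
  rw [h2] at h1'
  have h3 : (v.comap (starRingEnd ℂ)) ((starRingEnd ℂ) (F 1) / Ω) =
      v (F 1 / (starRingEnd ℂ) Ω) := by
    rw [Valuation.comap_apply, map_div₀ (starRingEnd ℂ), Complex.conj_conj]
  rw [h3] at h1'
  refine ⟨v s * (v.comap (starRingEnd ℂ)) s', ?_, fun hk => ?_, fun hk => ?_, ?_⟩
  · exact mul_le_one' hs.le hs'.le
  · rw [hs.eq_one hv (hd1 hk), hs'.eq_one hv' (hd1 hk), one_mul]
  · rw [hd0 hk] at hs hs'
    exact mul_lt_one_of_lt_of_le hs.lt_one hs'.le
  · have e : F 1 * (starRingEnd ℂ) (F 1) / (Ω * (starRingEnd ℂ) Ω) =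
        ((starRingEnd ℂ) (F 1) / Ω) * (F 1 / (starRingEnd ℂ) Ω) := by
      rw [div_mul_div_comm]
      ring
    obtain ⟨n, hn⟩ : ∃ n, Fintype.card J = n + 1 := ⟨Fintype.card J - 1, by
      have := Fintype.card_pos (α := J)
      omega⟩
    have hl : v Pool.Agent.Y715.T.Three.lam ≠ 0 := lam_ne
    rw [hn] at h1 h1' ⊢
    rw [Nat.add_sub_cancel]
    apply mul_right_cancel₀ (mul_ne_zero hl hl)
    rw [e, map_mul, mul_pow]
    calc _ = (v ((starRingEnd ℂ) (F 1) / Ω) * v Pool.Agent.Y715.T.Three.lam ^ 2) *
          (v (F 1 / (starRingEnd ℂ) Ω) * v Pool.Agent.Y715.T.Three.lam ^ 2) := by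
          rw [pow_two]; ac_rfl
      _ = _ := by
          rw [h1, h1', pow_succ]
          ac_rfl

end Pool.Agent.H428.TP
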