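import Pool.Agent.H428.TP.Tam
import Pool.Agent.H428.TP.Val

/-!
# The `3`-part of the formula for `y² + D y = x³` over `ℚ(ω)`, `D = ± ω^k ∏ π_i`
-/

set_option autoImplicit false
set_option linter.unusedSectionVars false
set_option linter.unusedVariables false

open scoped Classical

namespace Pool.Agent.H428.TP

open NumberField IsDedekindDomain WeierstrassCurve WithZero
open Pool.Agent.Y692.QS (Ei w nr toC)
open Pool.Agent.Y703.CT
open Pool.Agent.Y715.T.Rec (cs)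
open Pool.Agent.Y696 (NonsingRed Cur)
open Pool.Agent.Y696.CTK
open Pool.Agent.Y715.T.Three (lam_ne sq_three)
open Pool.Agent.TH841.NF.D (Sha)
open Pool.Agent.XL6 (KerV)
open Pool.Agent.H462.CTU.Chr (nq)
open Pool.Agent.H462.CTU.LK (Dk)
open Pool.Agent.H462.CTU.Val (IsHLk)
open Pool.Agent.H462.CTU.Main (KerW)
open Pool.Agent.H462.CTU.Sel (KW KerC)

/-! ### the kernels -/

section ker
variable {J : Type} [Fintype J] [Nonempty J] {π : J → Ei} {k : ZMod 3}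

lemma kerV_card (h : Ker π (fun _ => 1)) : (KerV π (fun _ => 1)).ncard = 3 := by
  have hcc : Set.range (fun (c : ZMod 3) (_ : J) => c) = KerV π (fun _ => 1) := by
    ext v
    constructor
    · rintro ⟨c, rfl⟩ j
      simp
    · intro hv
      obtain ⟨j0⟩ := (inferInstance : Nonempty J)
      exact ⟨v j0, funext fun i => h v hv j0 i⟩
  obtain ⟨j0⟩ := (inferInstance : Nonempty J)
  rw [← hcc, Set.ncard_range_of_injective, Nat.card_zmod]
  intro c c' h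
  exact congrFun h j0

lemma kerW_card (h : KerC k π (fun _ => 1)) : (KW k π (fun _ => 1)).ncard = 3 := by
  have hcc : Set.range (fun (c : ZMod 3) (_ : Option J) => c) = KW k π (fun _ => 1) := by
    ext v
    constructor
    · rintro ⟨c, rfl⟩ j
      simp
    · intro hv
      refine ⟨v none, funext fun o => ?_⟩
      cases o with
      | none => rfl
      | some i => exact (h v hv i).symm
  rw [← hcc, Set.ncard_range_of_injective, Nat.card_zmod]
  intro c c' h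
  exact congrFun h none

lemma kerC_iff (hD : Dt π (fun _ => 1)) : KerC k π (fun _ => 1) ↔ KerW k π (fun _ => 1) := by
  refine ⟨Pool.Agent.H462.CTU.Crit.kerC_W Pool.Agent.Y350.CT.rec hD, fun hK v hv i => ?_⟩
  refine hK v (fun j => ?_) i
  have h1 := hv j
  have h2 : ∑ i, (1 : ZMod 3) * cs (π i) (π j) * (v (some j) - v (some i)) =
      -∑ i, (1 : ZMod 3) * cs (π j) (π i) * (v (some i) - v (some j)) := by
    rw [← Finset.sum_neg_distrib]
    refine Finset.sum_congr rfl fun i _ => ?_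
    by_cases hij : i = j
    · rw [hij, sub_self, mul_zero, neg_zero]
    · rw [Pool.Agent.Y350.CT.rec (π i) (π j) (hD.pq i) (hD.pq j) (hD.nd i j hij)]
      ring
  rw [h2]
  linear_combination -h1

/-- the kernel of the system is as small as possible -/
def Sm (k : ZMod 3) (π : J → Ei) : Prop :=
  (k = 0 → Ker π (fun _ => 1)) ∧ (k ≠ 0 → KerC k π (fun _ => 1))

end ker

/-! ### the value -/

section val
variable {J : Type} [Fintype J] [Nonempty J] {π : J → Ei} {k : ZMod 3}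

theorem val_all (hD : Dt π (fun _ => 1))
    (h9 : k = 0 → ¬ (9 : ℤ) ∣ nr (pD π (fun _ => 1)) - 1) :
    ∃ F : ℂ → ℂ, IsHLk k π (fun j => -1) F ∧
      ∀ (Γ : Type) [LinearOrderedCommGroupWithZero Γ] (v : Valuation ℂ Γ), v 3 < 1 →
        ∀ (L : PeriodPair) (Ω : ℂ), Cur L Ω → ∃ g : Γ, g ≤ 1 ∧ (Sm k π → g = 1) ∧
          (¬ Sm k π → g < 1) ∧
          v (F 1 * (starRingEnd ℂ) (F 1) / (Ω * (starRingEnd ℂ) Ω)) *
            (v Pool.Agent.Y715.T.Three.lam * v Pool.Agent.Y715.T.Three.lam) =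
            (v Pool.Agent.Y715.T.Three.lam * v Pool.Agent.Y715.T.Three.lam) ^
              (Fintype.card J - 1) * g := by
  by_cases hk : k = 0
  · obtain ⟨F, hF, hval⟩ := val_sq hD (h9 hk)
    have hSm : Sm k π ↔ Ker π (fun _ => 1) := by
      unfold Sm
      exact ⟨fun h => h.1 hk, fun h => ⟨fun _ => h, fun h0 => absurd hk h0⟩⟩
    refine ⟨F, ?_, ?_⟩
    · subst hk
      refine ⟨hF.1, fun s hs => (hF.2 s hs).congr_fun fun α => ?_⟩
      rw [zero_mul, neg_zero, ZMod.val_zero, pow_zero, one_mul]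
    · intro Γ _ v hv L Ω hC
      obtain ⟨g, h1, h2, h3, h4⟩ := hval Γ v hv L Ω hC
      exact ⟨g, h1, fun h => h2 (hSm.1 h), fun h => h3 fun h' => h (hSm.2 h'), h4⟩
  · obtain ⟨F, hF, hval⟩ := val_w (e := fun _ => 1) hk hD
    have hSm : Sm k π ↔ KerW k π (fun _ => 1) := by
      rw [← kerC_iff hD]
      unfold Sm
      exact ⟨fun h => h.2 hk, fun h => ⟨fun h0 => absurd h0 hk, fun _ => h⟩⟩
    refine ⟨F, hF, ?_⟩
    intro Γ _ v hv L Ω hC
    obtain ⟨g, h1, h2, h3, h4⟩ := hval Γ v hv L Ω hC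
    exact ⟨g, h1, fun h => h2 (hSm.1 h), fun h => h3 fun h' => h (hSm.2 h'), h4⟩

end val

section
variable {K : Type} [Field K] [NumberField K] (j : Ei ≃+* 𝓞 K)
variable {J : Type} [Fintype J] [Nonempty J] {π : J → Ei} {k : ZMod 3} {D : Ei}

/-- twice the area of a fundamental parallelogram -/
noncomputable def per (Λ : PeriodPair) : ℝ := 2 * |((starRingEnd ℂ) Λ.ω₁ * Λ.ω₂).im|

/-- the quotient -/
noncomputable def quo (E : WeierstrassCurve K) (L : ℂ → ℂ) (c : HeightOneSpectrum (𝓞 K) → ℕ)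
    (Λ : PeriodPair) : ℂ :=
  L 1 * (Real.sqrt |(discr K : ℝ)| : ℝ) *
    (Nat.card (AddCommGroup.torsion E.toAffine.Point) : ℂ) ^ 2 /
      ((per Λ : ℂ) * ((∏ᶠ v, c v : ℕ) : ℂ))

lemma v_embD {Γ : Type} [LinearOrderedCommGroupWithZero Γ] {v : Valuation ℂ Γ} (hv : v 3 < 1)
    (τ : Ei →+* ℂ) (hD : Dt π (fun _ => 1)) (hDk : Dk k π (fun _ => 1) D) : v (τ D) = 1 := by
  have h3D : (3 : Ei) ∣ pD π (fun _ => 1) - 1 := by
    rw [pD_one]
    exact three_dvd_prod hD.pq _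
  have hw : v (τ w) = 1 := by
    refine Pool.Agent.Y715.T.Cg.z_pow (k := 3) (by norm_num) ?_
    rw [← map_pow]
    have : (w : Ei) ^ 3 = 1 := by decide
    rw [this, map_one]
  have h1 := v_emb_unit v hv τ h3D
  rcases hDk with h | h
  · rw [h, map_mul, map_pow, map_mul, map_pow, hw, one_pow, one_mul, h1]
  · rw [h, map_neg, Valuation.map_neg, map_mul, map_pow, map_mul, map_pow, hw, one_pow, one_mul, h1]

/-- the law for one `D` -/
theorem law_gen (hdisc : discr K = -3) (hD : Dt π (fun _ => 1)) (hDk : Dk k π (fun _ => 1) D)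
    (h9 : k = 0 → ¬ (9 : ℤ) ∣ nr (pD π (fun _ => 1)) - 1) :
    Finite (AddCommGroup.torsion (ED (j D : K)).toAffine.Point) ∧
    padicValNat 3 (Nat.card (AddCommGroup.torsion (ED (j D : K)).toAffine.Point)) = 1 ∧
    ∃ (Lf : ℂ → ℂ) (c : HeightOneSpectrum (𝓞 K) → ℕ),
      Differentiable ℂ Lf ∧
      (∀ s : ℂ, 3 / 2 < s.re →
        LSeriesSummable ((fun n : ℤ => (n : ℂ)) ∘ (ED (j D : K)).LFunction) s ∧
          Lf s = (ED (j D : K)).LSeries s) ∧
      IsTam (ED (j D : K)) c ∧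
      (∀ v, j D ∈ v.asIdeal → c v = 3) ∧ (∀ v, j D ∉ v.asIdeal → ¬ 3 ∣ c v) ∧
      ∀ σ : K →+* ℂ, (∃ Λ : PeriodPair, Λ.g₂ = 0 ∧ Λ.g₃ = -(σ (j D)) ^ 2) ∧
        ∀ Λ : PeriodPair, Λ.g₂ = 0 → Λ.g₃ = -(σ (j D)) ^ 2 →
          ∀ (Γ : Type) [LinearOrderedCommGroupWithZero Γ] (v : Valuation ℂ Γ), v 3 < 1 →
            v (quo (ED (j D : K)) Lf c Λ) ≤ 1 ∧ (v (quo (ED (j D : K)) Lf c Λ) = 1 ↔ Sm k π) := by
  have hne : D ≠ 0 := hDk.ne hD
  obtain ⟨e, i₀, hi, u₀, a, Ψ, g₀, hdata⟩ := parts.trf K j _ hne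
  have ha : ∃ σ, a σ ≠ 0 := by
    by_cases hk : k = 0
    · subst hk
      obtain ⟨u', hT'⟩ := Pool.Agent.H462.CTU.Crit0.tw_neg hDk hdata.1
      exact Pool.Agent.Y703.CT.a_ne hD hT'
    · exact Pool.Agent.H462.CTU.Crit.a_ne hD hDk hdata.1
  obtain ⟨ht1, ht2⟩ := parts.tor K j _ hne e i₀ hi u₀ a Ψ g₀ hdata ha
  obtain ⟨F, hF, hval⟩ := val_all hD h9
  obtain ⟨c, hc, hc1, hc2, m, hm3, hm⟩ := tam_gen j hD hDk h9
  set N := Nat.card (AddCommGroup.torsion (ED (j D : K)).toAffine.Point) with hN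
  have hN0 : N ≠ 0 := by
    intro h
    rw [h] at ht2
    simp at ht2
  obtain ⟨n', hn'⟩ : 3 ∣ N := by
    have := pow_padicValNat_dvd (p := 3) (n := N)
    rwa [ht2, pow_one] at this
  have hp3 : Fact (Nat.Prime 3) := ⟨Nat.prime_three⟩
  have hn3 : ¬ 3 ∣ n' := by
    rintro ⟨t, rfl⟩
    have h2 : 3 ^ 2 ∣ N := ⟨t, by rw [hn']; ring⟩
    have := (padicValNat_dvd_iff_le hN0).1 h2
    omega
  have hm0 : m ≠ 0 := by
    rintro rfl
    exact hm3 (dvd_zero 3)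
  refine ⟨ht1, ht2, fun s => F s * (starRingEnd ℂ) (F ((starRingEnd ℂ) s)), c, diff_conj hF.1,
    fun s hs => Pool.Agent.H462.CTU.LK.LK Pool.Agent.Y350.CT.rec j hD hDk hF hs, hc, hc1, hc2,
    fun σ => ?_⟩
  set τ : Ei →+* ℂ := σ.comp ((algebraMap (𝓞 K) K).comp (j : Ei →+* 𝓞 K)) with hτ
  have hτa : ∀ z, τ z = σ (j z : K) := fun z => rfl
  set d : ℂ := σ (j D : K) with hd
  have hd0 : d ≠ 0 := by
    rw [hd, ← hτa]
    intro h
    apply hne
    apply j.injective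
    rw [map_zero]
    have h1 : ((j D : 𝓞 K) : K) = 0 := (map_eq_zero σ).1 h
    exact_mod_cast h1
  obtain ⟨u, hu⟩ := IsAlgClosed.exists_pow_nat_eq d (n := 3) (by norm_num)
  obtain ⟨hex, hall⟩ := PER d u hd0 hu
  refine ⟨hex, fun Λ k2 k3 => ?_⟩
  obtain ⟨L, Ω, hC, hA⟩ := hall Λ k2 k3
  have hΩ : Ω ≠ 0 := hC.lat.ne
  have hu0 : u ≠ 0 := by
    rintro rfl
    apply hd0
    rw [← hu]
    ring
  have hΩc : (starRingEnd ℂ) Ω ≠ 0 := (map_ne_zero _).2 hΩ
  have huc : (starRingEnd ℂ) u ≠ 0 := (map_ne_zero _).2 hu0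
  have hNC : (N : ℂ) ≠ 0 := by exact_mod_cast hN0
  have hmC : (m : ℂ) ≠ 0 := by exact_mod_cast hm0
  have hs3 : ((Real.sqrt 3 : ℝ) : ℂ) ≠ 0 := by
    rw [Ne, Complex.ofReal_eq_zero]
    positivity
  have hA' : ((per Λ : ℝ) : ℂ) =
      ((Real.sqrt 3 : ℝ) : ℂ) * (Ω * (starRingEnd ℂ) Ω) / (u * (starRingEnd ℂ) u) := by
    unfold per
    rw [hA, Complex.mul_conj, Complex.mul_conj, Complex.normSq_eq_norm_sq,
      Complex.normSq_eq_norm_sq]
    push_cast
    ring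
  have hdis : ((Real.sqrt |(discr K : ℝ)| : ℝ) : ℂ) = ((Real.sqrt 3 : ℝ) : ℂ) := by
    rw [hdisc]
    norm_num
  have hq : quo (ED (j D : K)) (fun s => F s * (starRingEnd ℂ) (F ((starRingEnd ℂ) s))) c Λ =
      F 1 * (starRingEnd ℂ) (F 1) / (Ω * (starRingEnd ℂ) Ω) * (u * (starRingEnd ℂ) u) *
        (N : ℂ) ^ 2 / (3 ^ Fintype.card J * m) := by
    unfold quo
    rw [hA', hdis, hm, ← hN]
    push_cast
    rw [map_one]
    field_simp
  intro Γ _ v hv
  rw [hq]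
  obtain ⟨g, hg1, hg2, hg3, hg⟩ := hval Γ v hv L Ω hC
  have hvm := v_natp hv hm3
  have hvN : v (N : ℂ) = v 3 := by
    rw [hn']
    push_cast
    rw [map_mul, v_natp hv hn3, mul_one]
  have hvu : v u = 1 := by
    apply v_cube
    rw [hu, hd, ← hτa]
    exact v_embD hv τ hD hDk
  have hvu' : v ((starRingEnd ℂ) u) = 1 := by
    apply v_cube
    rw [← map_pow, hu, hd, ← hτa]
    exact v_embD hv ((starRingEnd ℂ).comp τ) hD hDk
  have hl : v Pool.Agent.Y715.T.Three.lam ≠ 0 := lam_ne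
  obtain ⟨n, hn⟩ : ∃ n, Fintype.card J = n + 1 := ⟨Fintype.card J - 1, by
    have := Fintype.card_pos (α := J)
    omega⟩
  have hv3 : v 3 ≠ 0 := by
    rw [← sq_three]
    exact mul_ne_zero hl hl
  have key : v (F 1 * (starRingEnd ℂ) (F 1) / (Ω * (starRingEnd ℂ) Ω) *
      (u * (starRingEnd ℂ) u) * (N : ℂ) ^ 2 / (3 ^ Fintype.card J * m)) = g := by
    rw [sq_three, hn, Nat.add_sub_cancel] at hg
    rw [hn, map_div₀, map_mul, map_mul, map_mul v u, map_mul v (3 ^ (n + 1)), map_pow, map_pow,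
      hvN, hvu, hvu', hvm, mul_one, mul_one, mul_one]
    rw [div_eq_iff (pow_ne_zero _ hv3)]
    calc _ = (v (F 1 * (starRingEnd ℂ) (F 1) / (Ω * (starRingEnd ℂ) Ω)) * v 3) * v 3 := by
          rw [pow_two, mul_assoc]
      _ = v 3 ^ n * g * v 3 := by rw [hg]
      _ = _ := by rw [pow_succ]; ac_rfl
  rw [key]
  refine ⟨hg1, ?_, hg2⟩
  intro h
  by_contra hk
  exact absurd h (hg3 hk).ne

end

end Pool.Agent.H428.TP
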