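import Pool.Agent.H428.TP.Loc
import Pool.Agent.H462.CTU.K
import Pool.Graph.R_seed8.Y891.CTK.E0

/-!
# The Tamagawa numbers of `y² + D y = x³` over `ℚ(ω)`, `D = ± ω^k ∏ π_i`
-/

set_option autoImplicit false
set_option linter.unusedSectionVars false

open scoped Classical

namespace Pool.Agent.H428.TP

open NumberField IsDedekindDomain WithZero WeierstrassCurve
open Pool.Agent.Y692.QS (Ei w nr)
open Pool.Agent.Y703.CT
open Pool.Agent.Y696 (NonsingRed)
open Pool.Agent.Y696.CTK (ED IsTam)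
open Pool.Agent.Y350.CTK Pool.Agent.Y350.CTK.Tam
open Pool.Agent.H462.CTU.LK (Dk)

section ei
variable {J : Type} [Fintype J] {π : J → Ei} {k : ZMod 3} {D : Ei}

lemma te_dvd_three : te ∣ (3 : Ei) := ⟨-te, by linear_combination te_sq⟩

lemma isUnit_w : IsUnit (w : Ei) := ⟨⟨w, w ^ 2, by decide, by decide⟩, rfl⟩

lemma isUnit_wk (k : ZMod 3) : IsUnit ((w : Ei) ^ k.val) := isUnit_w.pow _

lemma Dk.unit (h : Dk k π (fun _ => 1) D) : ∃ u : Ei, IsUnit u ∧ D = u * pD π (fun _ => 1) := by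
  rcases h with h | h
  · exact ⟨_, isUnit_wk k, h⟩
  · exact ⟨-w ^ k.val, (isUnit_wk k).neg, by rw [h]; ring⟩

lemma te_pD (hD : Dt π (fun _ => 1)) : ¬ te ∣ pD π (fun _ => 1) := by
  intro h
  obtain ⟨m, hm⟩ := three_dvd hD
  apply te_prime.not_isUnit
  have e1 : (1 : Ei) = pD π (fun _ => 1) - 3 * m := by linear_combination -hm
  exact isUnit_of_dvd_one (by rw [e1]; exact dvd_sub h (te_dvd_three.mul_right _))

lemma te_D (hD : Dt π (fun _ => 1)) (h : Dk k π (fun _ => 1) D) : ¬ te ∣ D := by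
  obtain ⟨u, hu, h1⟩ := Dk.unit h
  rw [h1, hu.dvd_mul_left]
  exact te_pD hD

lemma sqf_D (hD : Dt π (fun _ => 1)) (h : Dk k π (fun _ => 1) D) : Squarefree D := by
  obtain ⟨u, hu, h1⟩ := Dk.unit h
  rw [h1]
  have h2 : Associated (u * pD π (fun _ => 1)) (pD π (fun _ => 1)) :=
    (associated_isUnit_mul_left_iff hu).2 (Associated.refl _)
  exact (sqf hD).squarefree_of_dvd h2.dvd

lemma w_sub_one : (w : Ei) - 1 = te * (-w ^ 2) := by decide

lemma w2_sub_one : (w : Ei) ^ 2 - 1 = te * w := by decide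

lemma zk {k : ZMod 3} (hk : k ≠ 0) : k = 1 ∨ k = 2 := by
  revert k
  decide

/-- the square of `D` modulo three -/
lemma D_sq (hk : k ≠ 0) (hD : Dt π (fun _ => 1)) (h : Dk k π (fun _ => 1) D) :
    ∃ q : Ei, D ^ 2 - 1 = te * q ∧ ¬ te ∣ q := by
  obtain ⟨m, hm⟩ := three_dvd hD
  have hp : pD π (fun _ => 1) = 1 + 3 * m := by linear_combination hm
  have h2 : D ^ 2 = (w ^ k.val) ^ 2 * (pD π (fun _ => 1)) ^ 2 := by
    rcases h with h | h <;> rw [h] <;> ring
  obtain ⟨u, hu, hu1⟩ : ∃ u : Ei, IsUnit u ∧ ((w : Ei) ^ k.val) ^ 2 - 1 = te * u := by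
    have hw3 : (w : Ei) ^ 3 = 1 := by decide
    have hk' := zk hk
    rcases hk' with rfl | rfl
    · refine ⟨w, isUnit_w, ?_⟩
      rw [← w2_sub_one]
      decide
    · refine ⟨-w ^ 2, (isUnit_w.pow 2).neg, ?_⟩
      rw [← w_sub_one]
      decide
  refine ⟨u - te * ((w ^ k.val) ^ 2 * (2 * m + 3 * m ^ 2)), ?_, ?_⟩
  · rw [h2, hp]
    linear_combination hu1 + (w ^ k.val) ^ 2 * (2 * m + 3 * m ^ 2) * te_sq
  · intro h3
    apply te_prime.not_isUnit
    have h4 : te ∣ u := by
      have := dvd_add h3 (Dvd.intro ((w ^ k.val) ^ 2 * (2 * m + 3 * m ^ 2)) rfl : te ∣ te * _)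
      rwa [sub_add_cancel] at this
    exact isUnit_of_dvd_unit h4 hu

end ei

/-- the prime above three, `± D = 1 + 3 m`, `m` a unit -/
theorem idx_pm {L : Type} [Field L] (v : Valuation L ℤᵐ⁰) {W : WeierstrassCurve L} {D E : L}
    (hW : W = ED D) (hE : D = E ∨ -D = E) (hE0 : (ED E).Δ ≠ 0) {θ m : L} (h1 : θ ^ 2 = -3)
    (h2 : v θ = exp (-1 : ℤ)) (h3 : E = 1 + 3 * m) (h4 : v m = 1)
    (h5 : ∀ x : L, v x ≤ 1 → v x < 1 ∨ v (x - 1) < 1 ∨ v (x + 1) < 1)
    (H : AddSubgroup W.toAffine.Point)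
    (hH : ∀ P, P ∈ H ↔ NonsingRed v W P) : H.index = 1 ∨ H.index = 2 ∨ H.index = 4 := by
  rcases hE with hE | hE
  · subst hE
    exact idx_t t3 v hW h1 h2 h3 h4 h5 H hH
  · subst hE
    exact idx_neg v hW hE0 (p := fun n => n = 1 ∨ n = 2 ∨ n = 4)
      (fun H' hH' => idx_t t3 v rfl h1 h2 h3 h4 h5 H' hH') H hH

section
variable {K : Type} [Field K] [NumberField K] (j : Ei ≃+* 𝓞 K)
variable {J : Type} [Fintype J] {π : J → Ei} {k : ZMod 3} {D : Ei}

lemma val_unit (v : HeightOneSpectrum (𝓞 K)) {u : Ei} (hu : IsUnit u) : v.intValuation (j u) = 1 := by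
  rw [HeightOneSpectrum.intValuation_eq_one_iff]
  intro h
  exact v.isPrime.ne_top (Ideal.eq_top_of_isUnit_mem _ h (hu.map j))

lemma val_D (h : Dk k π (fun _ => 1) D) (v : HeightOneSpectrum (𝓞 K)) :
    v.intValuation (j D) = v.intValuation (j (pD π (fun _ => 1))) := by
  obtain ⟨u, hu, h1⟩ := Dk.unit h
  rw [h1, map_mul, map_mul, val_unit j v hu, one_mul]

lemma mem_D (v : HeightOneSpectrum (𝓞 K)) (h : Dk k π (fun _ => 1) D) :
    j D ∈ v.asIdeal ↔ ∃ i, j (π i) ∈ v.asIdeal := by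
  obtain ⟨u, hu, h1⟩ := Dk.unit h
  rw [h1, map_mul, Tam.pD_eq, map_prod]
  constructor
  · intro h2
    rcases v.isPrime.mem_or_mem h2 with h3 | h3
    · exact absurd (Ideal.eq_top_of_isUnit_mem _ h3 (hu.map j)) v.isPrime.ne_top
    · obtain ⟨i, -, hi⟩ := (Ideal.IsPrime.prod_mem_iff (hp := v.isPrime)).1 h3
      exact ⟨i, hi⟩
  · rintro ⟨i, hi⟩
    refine v.asIdeal.mul_mem_left _ ?_
    exact (Ideal.IsPrime.prod_mem_iff (hp := v.isPrime)).2 ⟨i, Finset.mem_univ _, hi⟩

/-- **the Tamagawa numbers** -/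
theorem tam_gen (hD : Dt π (fun _ => 1)) (h : Dk k π (fun _ => 1) D)
    (h9 : k = 0 → ¬ (9 : ℤ) ∣ nr (pD π (fun _ => 1)) - 1) :
    ∃ c : HeightOneSpectrum (𝓞 K) → ℕ, IsTam (ED (j D : K)) c ∧
      (∀ v, j D ∈ v.asIdeal → c v = 3) ∧ (∀ v, j D ∉ v.asIdeal → ¬ 3 ∣ c v) ∧
      ∃ m : ℕ, ¬ 3 ∣ m ∧ ∏ᶠ v, c v = 3 ^ Fintype.card J * m := by
  have hD0 : D ≠ 0 := (sqf_D hD h).ne_zero
  have hjD0 : ((j D : 𝓞 K) : K) ≠ 0 := by
    intro h0
    have h1 : j D = 0 := by
      apply RingOfIntegers.ext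
      exact h0
    exact hD0 ((map_eq_zero_iff j j.injective).1 h1)
  have hsub : ∀ v : HeightOneSpectrum (𝓞 K), ∃ H : AddSubgroup
      ((ED (j D : K)).baseChange (v.adicCompletion K)).toAffine.Point,
      ∀ P, P ∈ H ↔ NonsingRed Valued.v
        ((ED (j D : K)).baseChange (v.adicCompletion K)) P := by
    intro v
    apply sub_ex Pool.Agent.Y891.CTK.e0k Valued.v (bc_ED _)
    · have h1 : (27 : v.adicCompletion K) * (algebraMap K (v.adicCompletion K)
          ((j D : 𝓞 K) : K)) ^ 4 = algebraMap K (v.adicCompletion K)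
          (27 * ((j D : 𝓞 K) : K) ^ 4) := by
        rw [map_mul, map_pow, map_ofNat]
      rw [h1, map_ne_zero]
      exact mul_ne_zero (by norm_num) (pow_ne_zero _ hjD0)
    · rw [val_eq]
      exact v.intValuation_le_one _
  choose H hH using hsub
  have hθ1 : (algebraMap K ((pl j te_prime).adicCompletion K) ((j te : 𝓞 K) : K)) ^ 2 = -3 := by
    have h1 : ((j te : 𝓞 K) : K) ^ 2 = -3 := by
      have h2 : (j te) ^ 2 = -3 := by rw [← map_pow, te_sq, map_neg, map_ofNat]
      have h3 := congrArg (algebraMap (𝓞 K) K) h2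
      rw [map_pow, map_neg, map_ofNat] at h3
      exact h3
    rw [← map_pow, h1, map_neg, map_ofNat]
  have hθ2 : Valued.v (algebraMap K ((pl j te_prime).adicCompletion K) ((j te : 𝓞 K) : K)) =
      exp (-1 : ℤ) := by rw [val_eq, pl_val]
  -- the indices
  have hA : (H (pl j te_prime)).index = 1 ∨ (H (pl j te_prime)).index = 2 ∨
      (H (pl j te_prime)).index = 4 := by
    by_cases hk : k = 0
    · obtain ⟨m, hm⟩ := three_dvd hD
      have hm' : pD π (fun _ => 1) = 1 + 3 * m := by linear_combination hm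
      have hte : ¬ te ∣ m := by
        have h10 := h9 hk
        rw [hm'] at h10
        exact te_m h10
      have hc : ((j D : 𝓞 K) : K) = ((j (pD π (fun _ => 1)) : 𝓞 K) : K) ∨
          -((j D : 𝓞 K) : K) = ((j (pD π (fun _ => 1)) : 𝓞 K) : K) := by
        have h0 : (w : Ei) ^ (0 : ZMod 3).val = 1 := by decide
        rw [hk] at h
        rcases h with h | h
        · left
          rw [h, h0, one_mul]
        · right
          rw [h, h0, one_mul, map_neg]
          exact neg_neg _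
      refine idx_pm Valued.v (bc_ED _) (E := algebraMap K ((pl j te_prime).adicCompletion K)
        ((j (pD π (fun _ => 1)) : 𝓞 K) : K)) ?_ ?_
          (θ := algebraMap K ((pl j te_prime).adicCompletion K) ((j te : 𝓞 K) : K))
          (m := algebraMap K ((pl j te_prime).adicCompletion K) ((j m : 𝓞 K) : K)) hθ1 hθ2 ?_ ?_
          (res j) _ (hH _)
      · rcases hc with hc | hc
        · left
          rw [hc]
        · right
          rw [← hc, map_neg]
      · rw [ED_delta]
        have h27 : (-27 : (pl j te_prime).adicCompletion K) =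
            algebraMap K ((pl j te_prime).adicCompletion K) (-27) := by rw [map_neg, map_ofNat]
        rw [h27]
        refine mul_ne_zero ((map_ne_zero _).2 (by norm_num)) (pow_ne_zero _ ?_)
        rw [map_ne_zero]
        rcases hc with hc | hc
        · rw [← hc]; exact hjD0
        · rw [← hc]; exact neg_ne_zero.2 hjD0
      · have h1 : ((j (pD π (fun _ => 1)) : 𝓞 K) : K) = 1 + 3 * ((j m : 𝓞 K) : K) := by
          have h2 : j (pD π (fun _ => 1)) = 1 + 3 * j m := by
            rw [hm', map_add, map_mul, map_one, map_ofNat]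
          have h3 := congrArg (algebraMap (𝓞 K) K) h2
          rw [map_add, map_mul, map_one, map_ofNat] at h3
          exact h3
        rw [h1, map_add, map_mul, map_one, map_ofNat]
      · apply val_one
        rw [mem_pl]
        exact hte
    · left
      obtain ⟨q, hq, hq1⟩ := D_sq hk hD h
      refine idx_w Valued.v (bc_ED _) hθ1 hθ2 ?_ ?_ (res j) _ (hH _)
      · exact val_one _ (by rw [mem_pl]; exact te_D hD h)
      · have e1 : (algebraMap K ((pl j te_prime).adicCompletion K) ((j D : 𝓞 K) : K)) ^ 2 - 1 =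
            algebraMap K ((pl j te_prime).adicCompletion K) ((j (te * q) : 𝓞 K) : K) := by
          rw [← hq]
          have h3 : ((j (D ^ 2 - 1) : 𝓞 K) : K) = ((j D : 𝓞 K) : K) ^ 2 - 1 := by
            rw [map_sub, map_pow, map_one]
            rfl
          rw [h3, map_sub, map_pow, map_one]
        rw [e1, val_eq, map_mul, map_mul, pl_val]
        have h4 : (pl j te_prime).intValuation (j q) = 1 := by
          rw [HeightOneSpectrum.intValuation_eq_one_iff, mem_pl]
          exact hq1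
        rw [h4, mul_one]
  have hB : ∀ i, (H (pl j (hD.pq i).prime)).index = 3 := by
    intro i
    refine idx_three td Valued.v (bc_ED _) ?_ ?_ _ (hH _)
    · rw [three_eq j]
      exact val_one _ (pl_three j hD i)
    · rw [val_eq, val_D j h, ← val_eq]
      exact val_D_exp j hD i
  have hC : ∀ v : HeightOneSpectrum (𝓞 K), j 3 ∉ v.asIdeal → (∀ i, j (π i) ∉ v.asIdeal) →
      (H v).index = 1 := by
    intro v h3 hi
    refine idx_one tg Valued.v (bc_ED _) ?_ ?_ _ (hH _)
    · rw [three_eq j]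
      exact val_one _ h3
    · refine val_one _ fun h5 => ?_
      obtain ⟨i, h6⟩ := (mem_D j v h).1 h5
      exact hi i h6
  -- the support
  have hsupp : Function.mulSupport (fun v => (H v).index) ⊆
      ((insert (pl j te_prime) (Finset.univ.image fun i => pl j (hD.pq i).prime) :
        Finset (HeightOneSpectrum (𝓞 K))) : Set (HeightOneSpectrum (𝓞 K))) := by
    intro v hv
    rw [Function.mem_mulSupport] at hv
    by_contra hcon
    apply hv
    rw [Finset.mem_coe, Finset.mem_insert, Finset.mem_image, not_or] at hcon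
    refine hC v (fun h => hcon.1 (three_mem j h)) fun i hi => hcon.2 ⟨i, Finset.mem_univ _, ?_⟩
    exact (eq_pl j (hD.pq i).prime hi).symm
  refine ⟨fun v => (H v).index, ⟨fun v => ⟨min_gen j (te_D hD h) (sqf_D hD h) v, H v, hH v, rfl⟩,
    ?_⟩, ?_, ?_, (H (pl j te_prime)).index, ?_, ?_⟩
  · exact (Finset.finite_toSet _).subset hsupp
  · intro v hv
    obtain ⟨i, hi⟩ := (mem_D j v h).1 hv
    rw [eq_pl j (hD.pq i).prime hi]
    exact hB i
  · intro v hv
    have hi : ∀ i, j (π i) ∉ v.asIdeal := fun i hi => hv ((mem_D j v h).2 ⟨i, hi⟩)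
    by_cases h3 : j 3 ∈ v.asIdeal
    · rw [three_mem j h3]
      show ¬ 3 ∣ (H (pl j te_prime)).index
      rcases hA with h | h | h <;> rw [h] <;> norm_num
    · show ¬ 3 ∣ (H v).index
      rw [hC v h3 hi]
      norm_num
  · rcases hA with h | h | h <;> rw [h] <;> norm_num
  · rw [finprod_eq_prod_of_mulSupport_subset _ hsupp, Finset.prod_insert, Finset.prod_image]
    · rw [Finset.prod_congr rfl fun i _ => hB i, Finset.prod_const, Finset.card_univ]
      ring
    · intro a _ b _ h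
      exact pl_inj j hD h
    · intro h
      rw [Finset.mem_image] at h
      obtain ⟨i, -, hi⟩ := h
      apply pl_three j hD i
      rw [hi, mem_pl]
      exact ⟨-te, by linear_combination te_sq⟩

end

end Pool.Agent.H428.TP
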