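import Pool.Graph.R_seed8.Y350.CTK.Loc
import Pool.Graph.R_seed8.Y350.CTK.Tam
import Pool.Graph.R_seed8.Y455.CTK.MIN
import Pool.Graph.R_seed8.Y700.VC

/-!
# Local computations for `y² + D y = x³`: the remaining classes at the prime above three, minimality
-/

set_option autoImplicit false
set_option linter.unusedSectionVars false

open scoped Classical

namespace Pool.Agent.H428.TP

open NumberField IsDedekindDomain WithZero WeierstrassCurve
open Pool.Agent.Y692.QS (Ei w nr)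
open Pool.Agent.Y696 (NonsingRed)
open Pool.Agent.Y696.CTK (ED)
open Pool.Agent.Y350.CTK

section
variable {L : Type} [Field L]

/-- the prime above three, `D² - 1` a uniformizer: no points of singular reduction -/
theorem idx_w (v : Valuation L ℤᵐ⁰) {W : WeierstrassCurve L} {D θ : L} (hW : W = ED D)
    (hθ : θ ^ 2 = -3)
    (hvθ : v θ = exp (-1 : ℤ)) (hD : v D = 1) (hD1 : v (D ^ 2 - 1) = exp (-1 : ℤ))
    (hres : ∀ x : L, v x ≤ 1 → v x < 1 ∨ v (x - 1) < 1 ∨ v (x + 1) < 1)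
    (H : AddSubgroup W.toAffine.Point) (hH : ∀ P, P ∈ H ↔ NonsingRed v W P) :
    H.index = 1 := by
  subst hW
  have v3 : v (3 : L) = exp (-2 : ℤ) := by
    have e : (3 : L) = -(θ ^ 2) := by rw [hθ]; ring
    rw [e, Valuation.map_neg, map_pow, hvθ]
    rfl
  have v3l : v (3 : L) < 1 := by
    rw [v3, lt_one_iff]
    exact exp_le_exp.2 (by norm_num)
  have v2 : v (2 : L) = 1 := by
    have e : (2 : L) = -1 + 3 := by norm_num
    rw [e, Valuation.map_add_eq_of_lt_left v (by rw [Valuation.map_neg, map_one]; exact v3l),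
      Valuation.map_neg, map_one]
  have v4 : v (4 : L) = 1 := by
    have e : (4 : L) = 2 * 2 := by norm_num
    rw [e, map_mul, v2, one_mul]
  have v5 : v (5 : L) = 1 := by
    have e : (5 : L) = -1 + 2 * 3 := by norm_num
    have h6 : v ((2 : L) * 3) < 1 := by rw [map_mul, v2, one_mul]; exact v3l
    rw [e, Valuation.map_add_eq_of_lt_left v (by rw [Valuation.map_neg, map_one]; exact h6),
      Valuation.map_neg, map_one]
  rw [AddSubgroup.index_eq_one, eq_top_iff]
  intro P _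
  by_contra hP
  obtain ⟨x, y, hA⟩ := not_mem_at hP
  obtain ⟨h1, h2⟩ := (not_mem_iff hH hA).1 hP
  have he := hA.eqn
  have hx : v x ≤ 1 := by
    by_contra hc
    rw [not_le] at hc
    have hx0 : v x ≠ 0 := (lt_trans zero_lt_one hc).ne'
    rw [map_mul, v3, map_pow] at h2
    have h3 : log (exp (-2 : ℤ) * v x ^ 2) < 0 := by
      rw [← log_one, log_lt_log (mul_ne_zero exp_ne_zero (pow_ne_zero 2 hx0)) one_ne_zero]
      exact h2
    have h4 : 0 < log (v x) := by
      rw [← log_one, log_lt_log one_ne_zero hx0]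
      exact hc
    rw [log_mul exp_ne_zero (pow_ne_zero 2 hx0), log_exp, log_pow, nsmul_eq_mul] at h3
    push_cast at h3
    omega
  have e0 : D ^ 2 + 4 * x ^ 3 = (2 * y + D) ^ 2 := by linear_combination -4 * he
  have hsq : v (D ^ 2 + 4 * x ^ 3) ≤ exp (-2 : ℤ) := by
    rw [e0]
    exact vle (vpow (lt_one_iff.1 h1) 2) (by norm_num)
  have hsq1 : v (D ^ 2 + 4 * x ^ 3) < 1 := lt_of_le_of_lt hsq (by
    rw [← exp_zero, exp_lt_exp]; norm_num)
  rcases hres x hx with h | h | h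
  · have h4 : v (4 * x ^ 3) < v (D ^ 2) := by
      rw [map_mul, v4, one_mul, map_pow, map_pow, hD, one_pow]
      exact pow_lt_one₀ zero_le' h (by norm_num)
    rw [Valuation.map_add_eq_of_lt_left v h4, map_pow, hD, one_pow] at hsq1
    exact lt_irrefl _ hsq1
  · have e1 : (5 : L) = (D ^ 2 + 4 * x ^ 3) - (D ^ 2 - 1) - 4 * ((x - 1) * (x ^ 2 + x + 1)) := by
      ring
    have h5 : v (5 : L) < 1 := by
      rw [e1]
      refine vsubl (vsubl hsq1 ?_) ?_
      · rw [hD1, ← exp_zero, exp_lt_exp]; norm_num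
      · rw [map_mul, v4, one_mul, map_mul]
        refine m2l h (vadd (vadd ?_ hx) (by rw [map_one]))
        rw [map_pow]
        exact pow_le_one₀ zero_le' hx
    rw [v5] at h5
    exact lt_irrefl _ h5
  · have h' := lt_one_iff.1 h
    have e1 : D ^ 2 - 1 = (D ^ 2 + 4 * x ^ 3) -
        4 * ((x + 1) ^ 3 - 3 * (x + 1) ^ 2 + 3 * (x + 1)) + 3 := by ring
    have h5 : v (D ^ 2 - 1) ≤ exp (-2 : ℤ) := by
      rw [e1]
      refine vadd (vsub hsq ?_) v3.le
      rw [map_mul, v4, one_mul]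
      refine vadd (vsub ?_ ?_) ?_
      · exact vle (vpow h' 3) (by norm_num)
      · exact vle (vmul v3.le (vpow h' 2)) (by norm_num)
      · exact vle (vmul v3.le h') (by norm_num)
    rw [hD1, exp_le_exp] at h5
    norm_num at h5

lemma vr_neg (D : L) : Pool.Agent.Y700.VR (ED D) (ED (-D)) 1 0 0 (-D) := by
  refine ⟨one_ne_zero, ?_, ?_, ?_, ?_, ?_⟩ <;> simp [ED] <;> ring

/-- the equations of `D` and of `-D` -/
theorem idx_neg (v : Valuation L ℤᵐ⁰) {W : WeierstrassCurve L} {D : L} (hW : W = ED D)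
    (h0 : (ED (-D)).Δ ≠ 0) {p : ℕ → Prop}
    (hall : ∀ H' : AddSubgroup (ED (-D)).toAffine.Point,
      (∀ P, P ∈ H' ↔ NonsingRed v (ED (-D)) P) → p H'.index)
    (H : AddSubgroup W.toAffine.Point) (hH : ∀ P, P ∈ H ↔ NonsingRed v W P) : p H.index := by
  subst hW
  set Φ := (vr_neg D).equiv h0 with hΦ
  have h1 := hall (H.comap (Φ : (ED (-D)).toAffine.Point →+ (ED D).toAffine.Point)) ?_
  · rwa [AddSubgroup.index_comap_of_surjective _ Φ.surjective] at h1
  · intro P
    rw [AddSubgroup.mem_comap]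
    show Φ P ∈ H ↔ _
    rw [hH]
    rcases P with _ | ⟨x, y, h⟩
    · exact Iff.rfl
    · have e1 : Φ (.some x y h) = .some (1 ^ 2 * x + 0) (1 ^ 3 * y + 1 ^ 2 * 0 * x + -D)
          (Pool.Agent.Y700.nonsing ((vr_neg D).delta_ne h0) ((vr_neg D).eqn.2 h.1)) :=
        (vr_neg D).fn_some h0 h
      rw [e1]
      show (1 ≤ v (2 * (1 ^ 3 * y + 1 ^ 2 * 0 * x + -D) + 0 * (1 ^ 2 * x + 0) + D) ∨
        1 ≤ v (3 * (1 ^ 2 * x + 0) ^ 2 + 2 * 0 * (1 ^ 2 * x + 0) + 0 -
          0 * (1 ^ 3 * y + 1 ^ 2 * 0 * x + -D))) ↔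
        (1 ≤ v (2 * y + 0 * x + -D) ∨ 1 ≤ v (3 * x ^ 2 + 2 * 0 * x + 0 - 0 * y))
      have e2 : 2 * (1 ^ 3 * y + 1 ^ 2 * 0 * x + -D) + 0 * (1 ^ 2 * x + 0) + D =
          2 * y + 0 * x + -D := by ring
      have e3 : 3 * (1 ^ 2 * x + 0) ^ 2 + 2 * 0 * (1 ^ 2 * x + 0) + 0 -
          0 * (1 ^ 3 * y + 1 ^ 2 * 0 * x + -D) = 3 * x ^ 2 + 2 * 0 * x + 0 - 0 * y := by ring
      rw [e2, e3]

end

section
variable {K : Type} [Field K] [NumberField K]

open Pool.Agent.Y455.CTK Pool.Agent.Y350.CTK.Tam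

/-- **minimality**, for squarefree `D` prime to three -/
theorem min_gen (j : Ei ≃+* 𝓞 K) {D : Ei} (h3D : ¬ te ∣ D) (hsq : Squarefree D)
    (v : HeightOneSpectrum (𝓞 K)) :
    IsMinimal (v.adicCompletionIntegers K) ((ED (j D : K)).baseChange (v.adicCompletion K)) := by
  have hbc : (ED (j D : K)).baseChange (v.adicCompletion K) =
      ED (algebraMap (v.adicCompletionIntegers K) (v.adicCompletion K)
        (algebraMap (𝓞 K) (v.adicCompletionIntegers K) (j D))) := by
    unfold WeierstrassCurve.baseChange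
    rw [ED_map]
    rfl
  rw [hbc]
  apply isMinimal_ED
  rintro u hu ⟨r, hr⟩
  have h1 : Valued.v (u : v.adicCompletion K) < 1 := (Pool.Agent.W189.NF.mem_max_iff v u).1 hu
  have h2 : Valued.v (u : v.adicCompletion K) ≤ exp (-1 : ℤ) := Pool.Agent.Y696.exp_lt h1
  have h3 : Valued.v (r : v.adicCompletion K) ≤ 1 := r.2
  obtain ⟨δ, hδ⟩ : ∃ δ : v.adicCompletion K, δ = algebraMap K (v.adicCompletion K) (j D : K) :=
    ⟨_, rfl⟩
  have h4 : (27 : v.adicCompletion K) * δ ^ 4 =
      (u : v.adicCompletion K) ^ 12 * (r : v.adicCompletion K) := by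
    have := congrArg (algebraMap (v.adicCompletionIntegers K) (v.adicCompletion K)) hr
    rw [map_mul, map_mul, map_pow, map_pow, map_ofNat] at this
    rw [hδ]
    exact this
  have h5 : Valued.v ((27 : v.adicCompletion K) * δ ^ 4) ≤ exp (-12 : ℤ) := by
    rw [h4, map_mul, map_pow]
    calc _ ≤ (exp (-1 : ℤ)) ^ 12 * 1 := by gcongr
      _ = exp (-12 : ℤ) := by rw [mul_one, ← exp_nsmul]; rfl
  have hval : ∀ x : 𝓞 K, Valued.v (algebraMap K (v.adicCompletion K) (x : K)) =
      v.intValuation x := by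
    intro x
    rw [Pool.Agent.H723R3.valued_algebraMap]
    exact HeightOneSpectrum.valuation_of_algebraMap (K := K) v x
  have hφ : ∀ x : 𝓞 K, algebraMap K (v.adicCompletion K) (x : K) =
      ((algebraMap K (v.adicCompletion K)).comp (algebraMap (𝓞 K) K)) x := fun _ => rfl
  have h6 : (exp (-6 : ℤ) : ℤᵐ⁰) ≤ Valued.v ((27 : v.adicCompletion K) * δ ^ 4) := by
    by_cases hv : (3 : 𝓞 K) ∈ v.asIdeal
    · have e2 := val_theta j v hv
      have e1 : (27 : 𝓞 K) = -(j Pool.Agent.Y715.T.Gi.lam) ^ 6 := by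
        have hsq : (j Pool.Agent.Y715.T.Gi.lam) ^ 2 = -3 := by
          rw [← map_pow, Pool.Agent.Y715.T.Gi.lam_sq, map_neg, map_ofNat]
        linear_combination ((j Pool.Agent.Y715.T.Gi.lam) ^ 4 -
          3 * (j Pool.Agent.Y715.T.Gi.lam) ^ 2 + 9) * hsq
      have e3 : v.intValuation (j D) = 1 := by
        rw [HeightOneSpectrum.intValuation_eq_one_iff]
        intro hmem
        apply h3D
        have hv3 : j 3 ∈ v.asIdeal := by rw [map_ofNat]; exact hv
        rw [three_mem j hv3, mem_pl] at hmem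
        exact hmem
      have e5 : (27 : v.adicCompletion K) * δ ^ 4 =
          algebraMap K (v.adicCompletion K) (((27 * (j D) ^ 4 : 𝓞 K)) : K) := by
        rw [hδ, hφ, hφ, map_mul, map_pow, map_ofNat]
      rw [e5, hval, map_mul, map_pow, e3, one_pow, mul_one, e1, Valuation.map_neg, map_pow, e2,
        ← exp_nsmul]
      exact le_of_eq rfl
    · have e2 : v.intValuation (3 : 𝓞 K) = 1 := HeightOneSpectrum.intValuation_eq_one_iff.2 hv
      have e3 : (exp (-1 : ℤ) : ℤᵐ⁰) ≤ v.intValuation (j D) := by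
        have h7 : ¬ v.intValuation (j D) ≤ exp (-((2 : ℕ) : ℤ)) := by
          rw [v.intValuation_le_pow_iff_mem]
          exact not_sq j v hsq
        rw [not_le] at h7
        obtain ⟨n, hn⟩ := Pool.Agent.Y696.exp_rep (ne_of_gt (lt_of_le_of_lt zero_le h7))
        rw [hn] at h7 ⊢
        rw [exp_lt_exp] at h7
        rw [exp_le_exp]
        push_cast at h7
        omega
      have e5 : (27 : v.adicCompletion K) * δ ^ 4 =
          algebraMap K (v.adicCompletion K) (((3 ^ 3 * (j D) ^ 4 : 𝓞 K)) : K) := by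
        rw [hδ, hφ, hφ, map_mul, map_pow, map_pow, map_ofNat]
        norm_num
      rw [e5, hval, map_mul, map_pow, map_pow, e2, one_pow, one_mul]
      calc (exp (-6 : ℤ) : ℤᵐ⁰) ≤ exp (-4 : ℤ) := by rw [exp_le_exp]; norm_num
        _ = (exp (-1 : ℤ)) ^ 4 := by rw [← exp_nsmul]; rfl
        _ ≤ _ := by gcongr
  have h7 := h6.trans h5
  rw [exp_le_exp] at h7
  norm_num at h7

end

end Pool.Agent.H428.TP
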