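import Pool.Agent.H428.TP.Law

/-!
# The curve of one element of the class
-/

set_option autoImplicit false
set_option linter.unusedSectionVars false
set_option linter.unusedVariables false

open scoped Classical

namespace Pool.Agent.H428.TP

open NumberField IsDedekindDomain WeierstrassCurve WithZero
open Pool.Agent.Y692.QS (Ei w nr toC)
open Pool.Agent.Y703.CT
open Pool.Agent.Y696 (NonsingRed Cur)
open Pool.Agent.Y696.CTK
open Pool.Agent.TH841.NF.D (Sha)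
open Pool.Agent.XL6 (KerV)
open Pool.Agent.Y699.E (PD)
open Pool.Agent.H462.CTU.LK (Dk)
open Pool.Agent.H462.CTU.Sel (KW KerC)
open Pool.Agent.H462.CTU.Fam
open Pool.Agent.H462.CTU.Law.Cou
open Pool.Agent.H462.CTU.K

section
variable {K : Type} [Field K] [NumberField K] (j : Ei ≃+* 𝓞 K)

lemma sm_iff {J : Type} [Fintype J] [Nonempty J] {π : J → Ei} {k : ZMod 3}
    (hD : Dt π (fun _ => 1)) {r : ℕ} (hCr : Cr k r (PD (pD π (fun _ => 1)))) :
    Sm k π ↔ r = 0 := by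
  have hG := (Cr_GW hD).1 hCr
  by_cases hk : k = 0
  · subst hk
    rw [if_pos rfl, GW_zero] at hG
    constructor
    · intro h
      have h1 := kerV_card (h.1 rfl)
      rw [hG] at h1
      by_contra h0
      have h2 : 3 ^ 2 ≤ 3 ^ (r + 1) := Nat.pow_le_pow_right (by norm_num) (by omega)
      omega
    · intro h0
      exact ⟨fun _ => ker_of (by rw [hG, h0]; norm_num), fun h => absurd rfl h⟩
  · rw [if_neg hk] at hG
    have hKW : (KW k π (fun _ => 1)).ncard = 3 ^ (r + 1) := by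
      rw [KW_ncard, hG, pow_succ]
      ring
    constructor
    · intro h
      have h1 := kerW_card (h.2 hk)
      rw [hKW] at h1
      by_contra h0
      have h2 : 3 ^ 2 ≤ 3 ^ (r + 1) := Nat.pow_le_pow_right (by norm_num) (by omega)
      omega
    · intro h0
      exact ⟨fun h => absurd h hk, fun _ => kerC_of (by rw [hKW, h0]; norm_num)⟩

/-- the law for one element of the class -/
theorem one3 (hdisc : discr K = -3) {z : Ei} (hz : ClsA z) {r : ℕ} (hr : CorE z r) :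
    Finite (AddCommGroup.torsion (ED (j z : K)).toAffine.Point) ∧
    padicValNat 3 (Nat.card (AddCommGroup.torsion (ED (j z : K)).toAffine.Point)) = 1 ∧
    ∃ (Lf : ℂ → ℂ) (c : HeightOneSpectrum (𝓞 K) → ℕ),
      Differentiable ℂ Lf ∧
      (∀ s : ℂ, 3 / 2 < s.re →
        LSeriesSummable ((fun n : ℤ => (n : ℂ)) ∘ (ED (j z : K)).LFunction) s ∧
          Lf s = (ED (j z : K)).LSeries s) ∧
      IsTam (ED (j z : K)) c ∧
      (∀ v, j z ∈ v.asIdeal → c v = 3) ∧ (∀ v, j z ∉ v.asIdeal → ¬ 3 ∣ c v) ∧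
      ∀ σ : K →+* ℂ, (∃ Λ : PeriodPair, Λ.g₂ = 0 ∧ Λ.g₃ = -(σ (j z)) ^ 2) ∧
        ∀ Λ : PeriodPair, Λ.g₂ = 0 → Λ.g₃ = -(σ (j z)) ^ 2 →
          ∀ (Γ : Type) [LinearOrderedCommGroupWithZero Γ] (v : Valuation ℂ Γ), v 3 < 1 →
            v (quo (ED (j z : K)) Lf c Λ) ≤ 1 ∧ (v (quo (ED (j z : K)) Lf c Λ) = 1 ↔ r = 0) := by
  obtain ⟨k, J, _, _, π, hdt, hDk, hCr, h9⟩ := exists_dt hz hr
  have hsm := sm_iff hdt hCr
  obtain ⟨h1, h2, Lf, c, h3, h4, h5, h6, h7, h8⟩ := law_gen j hdisc hdt hDk h9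
  refine ⟨h1, h2, Lf, c, h3, h4, h5, h6, h7, fun σ => ⟨(h8 σ).1, fun Λ k2 k3 Γ _ v hv => ?_⟩⟩
  obtain ⟨a1, a2⟩ := (h8 σ).2 Λ k2 k3 Γ v hv
  exact ⟨a1, a2.trans hsm⟩

end

end Pool.Agent.H428.TP
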