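import Pool.Agent.H428.TP.One
import Pool.Agent.H428.TP.Conv

/-!
# The arithmetic side
-/

set_option autoImplicit false
set_option linter.unusedSectionVars false
set_option linter.unusedVariables false

open scoped Classical

namespace Pool.Agent.H428.TP

open NumberField IsDedekindDomain WeierstrassCurve
open Pool.Agent.Y692.QS (Ei w nr toC)
open Pool.Agent.Y703.CT
open Pool.Agent.Y696.CTK
open Pool.Agent.TH841.NF.D (Sha)
open Pool.Agent.H462.CTU.LK (Dk)
open Pool.Agent.H462.CTU.Sel (KW KerC)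
open Pool.Agent.H462.CTU.Law.Cou
open Pool.Agent.H462.CTU.Fam
open Pool.Agent.H462.CTU.K

section
variable {K : Type} [Field K] [NumberField K] (j : Ei ≃+* 𝓞 K)
variable {J : Type} [Fintype J] [Nonempty J] {π : J → Ei} {k : ZMod 3} {D : Ei}

theorem tri_all (hD : Dt π (fun _ => 1)) (hDk : Dk k π (fun _ => 1) D)
    (h9 : k = 0 → ¬ (9 : ℤ) ∣ nr (pD π (fun _ => 1)) - 1) :
    (Finite (ED (j D : K)).toAffine.Point ∧
      ∀ (n : ℕ) (x : Sha (ED (j D : K))), 3 ^ n • x = 0 → x = 0) ↔ Sm k π := by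
  have hne : D ≠ 0 := hDk.ne hD
  constructor
  · rintro ⟨h1, h2⟩
    obtain ⟨e', i₀, hi, u, a, Ψ, g, hdata⟩ := parts.trf K j _ hne
    have hT := hdata.1
    by_cases hk : k = 0
    · subst hk
      obtain ⟨u', hT'⟩ := Pool.Agent.H462.CTU.Crit0.tw_neg hDk hT
      have ha := Pool.Agent.Y703.CT.a_ne hD hT'
      have hM := parts.mwc K j _ hne e' i₀ hi u a Ψ g hdata ha h1
      have hS := parts.shc parts.plc K j _ hne e' i₀ hi u a Ψ g hdata h2
      have hsel := Pool.Agent.H70CT.t_SHC _ hne i₀ hi u a hT ha hS hM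
      refine ⟨fun _ => ?_, fun h => absurd rfl h⟩
      by_contra hker
      exact Pool.Agent.Y363.CT.SELC.t_SELC Pool.Agent.Y319.CT.t_FF Pool.Agent.Y379.CT.t_CUB
        Pool.Agent.Y100.CT.CUB3.t_cub3 Pool.Agent.Y674.CT.t_PT Pool.Agent.Y379.CT.t_RAMC J π _ hD
        hker (h9 rfl) i₀ hi u' a hT' hsel
    · have ha := Pool.Agent.H462.CTU.Crit.a_ne hD hDk hT
      have hM := parts.mwc K j _ hne e' i₀ hi u a Ψ g hdata ha h1
      have hS := parts.shc parts.plc K j _ hne e' i₀ hi u a Ψ g hdata h2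
      have hsel := Pool.Agent.H70CT.t_SHC _ hne i₀ hi u a hT ha hS hM
      refine ⟨fun h => absurd h hk, fun _ => ?_⟩
      by_contra hker
      exact selc hk hD hDk hker hT hsel
  · rintro ⟨h1, h2⟩
    by_cases hk : k = 0
    · subst hk
      obtain ⟨a1, -, a3⟩ := Pool.Agent.H462.CTU.Crit0.ari (K := K) j hD hDk (h9 rfl) (h1 rfl)
      exact ⟨a1, a3⟩
    · obtain ⟨a1, -, a3⟩ := Pool.Agent.H462.CTU.Crit.ari (K := K) j hk hD hDk (h2 hk)
      exact ⟨a1, a3⟩

/-- the arithmetic side for one element of the class -/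
theorem tri_one {z : Ei} (hz : ClsA z) {r : ℕ} (hr : CorE z r) :
    (Finite (ED (j z : K)).toAffine.Point ∧
      ∀ (n : ℕ) (x : Sha (ED (j z : K))), 3 ^ n • x = 0 → x = 0) ↔ r = 0 := by
  obtain ⟨k, J, _, _, π, hdt, hDk, hCr, h9⟩ := exists_dt hz hr
  exact (tri_all j hdt hDk h9).trans (sm_iff hdt hCr)

end

end Pool.Agent.H428.TP
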